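import Pool.Agent.N878.PC21.PE4
import Pool.Agent.N878.PC21.PC3

/-!
# The number of pairs with given Gram matrix for an even norm (project P21, parts PCE and PC3E)
-/

set_option autoImplicit false
set_option linter.all false

namespace Pool.Agent.N878.PC21

open Finset
open Pool.Agent.Z700 (hh fac)
open Pool.Agent.Y155.Z7 (C C_eq C_prod R R_eq R_one R_ram_one R_ram S S_zero S_one S_step S_prod
  S_unram S_ram)
open Pool.Agent.N969.P15 (tw tb Ev)
open Pool.Agent.N877.P21 (ip vec cp locE loc3E S_PCE S_PC3E)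
open Pool.Agent.N972.PC15 (TT mem_TT)
open Pool.Agent.N575.P15.PCE (crt_card sq_par card_TTE S_twoE S_facE jac_pm)

theorem cond_iff {n1 m0 T : ℕ} (hn : n1 = m0 * T) (hco : Nat.Coprime m0 T) (hs0 : Squarefree m0)
    (h2 : m0 % 2 = 1) {e φ g β μ ν : ℕ} {b : ℤ} (hg : 4 * φ * g = β ^ 2 + n1) :
    (((n1 : ℤ) ∣ e * μ - b ∧ n1 ∣ μ ^ 2 + 12 * φ ∧ n1 ∣ 6 * β + μ * ν ∧ n1 ∣ 12 * g + ν ^ 2) ∧
      ExtD n1 φ g μ β ν) ↔
    (((m0 : ℤ) ∣ e * μ - b ∧ m0 ∣ μ ^ 2 + 12 * φ ∧ m0 ∣ 6 * β + μ * ν ∧ m0 ∣ 12 * g + ν ^ 2) ∧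
      ((T : ℤ) ∣ e * μ - b ∧ CS T n1 φ g β μ ν)) := by
  have hm : m0 ∣ n1 := ⟨T, hn⟩
  have hT : T ∣ n1 := ⟨m0, by rw [hn]; ring⟩
  have hmZ : (m0 : ℤ) ∣ n1 := Int.natCast_dvd_natCast.2 hm
  have hTZ : (T : ℤ) ∣ n1 := Int.natCast_dvd_natCast.2 hT
  have hcZ : IsCoprime (m0 : ℤ) (T : ℤ) := Nat.isCoprime_iff_coprime.2 hco
  have hnZ : (n1 : ℤ) = m0 * T := by rw [hn]; push_cast; ring
  constructor
  · rintro ⟨⟨a1, a2, a3, a4⟩, a5, a6, a7⟩
    refine ⟨⟨hmZ.trans a1, hm.trans a2, hm.trans a3, hm.trans a4⟩, hTZ.trans a1, ?_, ?_, ?_,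
      hTZ.trans a5, hTZ.trans a6, (pow_dvd_pow_of_dvd hTZ 2).trans a7⟩
    · exact_mod_cast hT.trans a2
    · exact_mod_cast hT.trans a3
    · exact_mod_cast hT.trans a4
  · rintro ⟨⟨a1, a2, a3, a4⟩, b1, b2, b3, b4, b5, b6, b7⟩
    have a2' : (m0 : ℤ) ∣ (μ : ℤ) ^ 2 + 12 * φ := by exact_mod_cast Int.natCast_dvd_natCast.2 a2
    have a3' : (m0 : ℤ) ∣ 6 * (β : ℤ) + μ * ν := by exact_mod_cast Int.natCast_dvd_natCast.2 a3
    have a4' : (m0 : ℤ) ∣ 12 * (g : ℤ) + ν ^ 2 := by exact_mod_cast Int.natCast_dvd_natCast.2 a4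
    have hgZ : 4 * (φ : ℤ) * g = β ^ 2 + (T * m0 : ℕ) := by
      have : (4 * φ * g : ℕ) = β ^ 2 + T * m0 := by rw [hg, hn]; ring
      exact_mod_cast this
    obtain ⟨c1, c2, c3⟩ := auto_odd hs0 h2 hco.symm hgZ a2' a3' a4'
    have eT : ((T * m0 : ℕ) : ℤ) = n1 := by rw [hn]; push_cast; ring
    rw [eT] at c3
    have key : ∀ X : ℤ, (m0 : ℤ) ∣ X → (T : ℤ) ∣ X → (n1 : ℤ) ∣ X := fun X h1 h2 => by
      rw [hnZ]; exact hcZ.mul_dvd h1 h2
    refine ⟨⟨key _ a1 b1, ?_, ?_, ?_⟩, key _ c1 b5, key _ c2 b6, ?_⟩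
    · have := key _ a2' b2
      exact_mod_cast this
    · have := key _ a3' b3
      exact_mod_cast this
    · have := key _ a4' b4
      exact_mod_cast this
    · rw [hnZ, mul_pow]
      rw [hnZ] at c3 b7
      exact hcZ.pow.mul_dvd c3 b7

theorem fibE {n1 m0 T : ℕ} (hn : n1 = m0 * T) (hT : 0 < T) (hm00 : 0 < m0)
    (hco : Nat.Coprime m0 T) (hs0 : Squarefree m0) (h2 : m0 % 2 = 1) (b : ℤ) (Q : ℕ)
    (t : ℕ × ℕ) (ht : t ∈ TT n1 Q) :
    ((XE n1 b Q).filter fun q => (q.1, q.2.2.1) = t).card =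
      C t.1 b (12 * (Q / t.1 ^ 2)) (6 * t.2) (12 * ((t.2 ^ 2 + n1) / (4 * (Q / t.1 ^ 2)))) m0 *
      ((range T ×ˢ range T).filter fun p : ℕ × ℕ => (T : ℤ) ∣ (t.1 : ℤ) * p.1 - b ∧
        CS T n1 ((Q / t.1 ^ 2 : ℕ) : ℤ) (((t.2 ^ 2 + n1) / (4 * (Q / t.1 ^ 2)) : ℕ) : ℤ) t.2
          p.1 p.2).card := by
  obtain ⟨h1, h3, h4, h5, h6⟩ := (mem_TT n1 Q t).1 ht
  obtain ⟨e, β⟩ := t
  simp only at h1 h3 h4 h5 h6 ⊢
  have hg : 4 * (Q / e ^ 2) * ((β ^ 2 + n1) / (4 * (Q / e ^ 2))) = β ^ 2 + n1 :=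
    Nat.mul_div_cancel' h6
  have hXE : ∀ μ ν : ℕ, μ < n1 → ν < n1 → ((e, μ, β, ν) ∈ XE n1 b Q ↔
      (((n1 : ℤ) ∣ e * μ - b ∧ n1 ∣ μ ^ 2 + 12 * (Q / e ^ 2) ∧ n1 ∣ 6 * β + μ * ν ∧
        n1 ∣ 12 * ((β ^ 2 + n1) / (4 * (Q / e ^ 2))) + ν ^ 2) ∧
      ExtD n1 (Q / e ^ 2) ((β ^ 2 + n1) / (4 * (Q / e ^ 2))) μ β ν)) := by
    intro μ ν hμ hν
    unfold XE XX0
    rw [Finset.mem_filter, Finset.mem_filter]
    simp only [Finset.mem_product, Finset.mem_range]
    constructor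
    · rintro ⟨⟨_, _, _, _, a1, a2, _, a3, a4⟩, a5⟩
      exact ⟨⟨a1, a2, a3, a4⟩, a5⟩
    · rintro ⟨⟨a1, a2, a3, a4⟩, a5⟩
      exact ⟨⟨⟨h1, hμ, h5.trans_le (Nat.mul_le_mul_left 2 (Nat.div_le_self _ _)), hν⟩, h3, h4, h5,
        a1, a2, h6, a3, a4⟩, a5⟩
  generalize Q / e ^ 2 = φ at *
  generalize (β ^ 2 + n1) / (4 * φ) = g at *
  rw [C_eq _ _ _ _ _ _ hm00]
  have hcrt := crt_card hm00 hT hco
    (fun x y : ℕ => (m0 : ℤ) ∣ (e : ℤ) * x - b ∧ m0 ∣ x ^ 2 + 12 * φ ∧ m0 ∣ 6 * β + x * y ∧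
      m0 ∣ 12 * g + y ^ 2)
    (fun x y : ℕ => (T : ℤ) ∣ (e : ℤ) * x - b ∧ CS T n1 φ g β x y)
    (fun x y => by
      have hx : x % m0 ≡ x [MOD m0] := Nat.mod_modEq _ _
      have hy : y % m0 ≡ y [MOD m0] := Nat.mod_modEq _ _
      have i1 : ((m0 : ℤ) ∣ (e : ℤ) * x - b) ↔ (m0 : ℤ) ∣ (e : ℤ) * (x % m0 : ℕ) - b := by
        apply dvd_iff_dvd_of_dvd_sub
        have e1 := Int.emod_add_mul_ediv (x : ℤ) m0
        refine ⟨e * (x / m0), ?_⟩
        push_cast
        linear_combination (-(e : ℤ)) * e1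
      have i2 : (m0 ∣ x ^ 2 + 12 * φ) ↔ m0 ∣ (x % m0) ^ 2 + 12 * φ :=
        (((hx.pow 2).add_right _).dvd_iff (dvd_refl _)).symm
      have i3 : (m0 ∣ 6 * β + x * y) ↔ m0 ∣ 6 * β + (x % m0) * (y % m0) :=
        (((hx.mul hy).add_left _).dvd_iff (dvd_refl _)).symm
      have i4 : (m0 ∣ 12 * g + y ^ 2) ↔ m0 ∣ 12 * g + (y % m0) ^ 2 :=
        (((hy.pow 2).add_left _).dvd_iff (dvd_refl _)).symm
      rw [i1, i2, i3, i4])
    (fun x y => by
      have i1 : ((T : ℤ) ∣ (e : ℤ) * x - b) ↔ (T : ℤ) ∣ (e : ℤ) * (x % T : ℕ) - b := by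
        apply dvd_iff_dvd_of_dvd_sub
        have e1 := Int.emod_add_mul_ediv (x : ℤ) T
        refine ⟨e * (x / T), ?_⟩
        push_cast
        linear_combination (-(e : ℤ)) * e1
      have i2 := CS_mod (T := T) (n1 := n1) (φ := φ) (g := g) (β := β) x y
      rw [i1, i2]
      push_cast
      rfl)
  refine Eq.trans ?_ hcrt
  rw [← hn]
  refine Finset.card_nbij' (fun q => (q.2.1, q.2.2.2)) (fun p => (e, p.1, β, p.2)) ?_ ?_ ?_ ?_
  · intro q hq
    have hq := Finset.mem_filter.1 (Finset.mem_coe.1 hq)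
    obtain ⟨hq1, hq2⟩ := hq
    obtain ⟨e', μ, β', ν⟩ := q
    simp only [Prod.mk.injEq] at hq2
    obtain ⟨rfl, rfl⟩ := hq2
    have hq3 := Finset.mem_product.1 (Finset.mem_filter.1 (Finset.mem_filter.1 hq1).1).1
    have hq4 := Finset.mem_product.1 hq3.2
    have hq5 := Finset.mem_product.1 hq4.2
    refine Finset.mem_coe.2 (Finset.mem_filter.2 ⟨Finset.mem_product.2 ⟨hq4.1, hq5.2⟩, ?_⟩)
    exact (cond_iff hn hco hs0 h2 hg).1
      ((hXE μ ν (Finset.mem_range.1 hq4.1) (Finset.mem_range.1 hq5.2)).1 hq1)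
  · intro p hp
    have hp := Finset.mem_filter.1 (Finset.mem_coe.1 hp)
    have hp1 := Finset.mem_product.1 hp.1
    refine Finset.mem_coe.2 (Finset.mem_filter.2 ⟨?_, rfl⟩)
    exact (hXE p.1 p.2 (Finset.mem_range.1 hp1.1) (Finset.mem_range.1 hp1.2)).2
      ((cond_iff hn hco hs0 h2 hg).2 hp.2)
  · intro q hq
    have hq := Finset.mem_filter.1 (Finset.mem_coe.1 hq)
    obtain ⟨_, hq2⟩ := hq
    obtain ⟨e', μ, β', ν⟩ := q
    simp only [Prod.mk.injEq] at hq2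
    obtain ⟨rfl, rfl⟩ := hq2
    rfl
  · intro p _
    rfl

theorem S_allE {m Q : ℕ} (hs : Squarefree m) (hm : m % 4 = 1 ∨ m % 4 = 2) (hQ : 0 < Q) :
    (S m Q : ℤ) = (S m (3 ^ Q.factorization 3) : ℤ) *
      ∏ l ∈ ((12 * Q).primeFactors.erase 2).erase 3, (if l ∣ 4 * m then 1 else
        ∑ j ∈ range ((12 * Q).factorization l + 1), (jacobiSym (-((4 * m : ℕ) : ℤ)) l) ^ j) := by
  have hm0 : 0 < m := Nat.pos_of_ne_zero hs.ne_zero
  have hQ12 : 12 * Q ≠ 0 := by omega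
  have hsub : Q.primeFactors ⊆ (12 * Q).primeFactors :=
    Nat.primeFactors_mono (Dvd.intro_left _ rfl) hQ12
  have h0 : (S m Q : ℤ) = ∏ l ∈ (12 * Q).primeFactors, (S m (l ^ Q.factorization l) : ℤ) := by
    rw [S_prod m hm0 Q hQ, Nat.cast_prod]
    refine Finset.prod_subset hsub fun l hl hl' => ?_
    have hp := Nat.prime_of_mem_primeFactors hl
    have : Q.factorization l = 0 := by
      apply Nat.factorization_eq_zero_of_not_dvd
      intro h
      exact hl' (Nat.mem_primeFactors.2 ⟨hp, h, hQ.ne'⟩)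
    rw [this, S_zero m hm0 l hp, Nat.cast_one]
  have h2 : 2 ∈ (12 * Q).primeFactors :=
    Nat.mem_primeFactors.2 ⟨Nat.prime_two, ⟨6 * Q, by ring⟩, hQ12⟩
  have h5 : 3 ∈ (12 * Q).primeFactors.erase 2 := Finset.mem_erase.2 ⟨by norm_num,
    Nat.mem_primeFactors.2 ⟨by norm_num, ⟨4 * Q, by ring⟩, hQ12⟩⟩
  rw [h0, ← Finset.mul_prod_erase _ _ h2, ← Finset.mul_prod_erase _ _ h5, S_twoE hs hm,
    Nat.cast_one, one_mul]
  congr 1
  refine Finset.prod_congr rfl fun l hl => ?_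
  have hl5 := Finset.mem_erase.1 hl
  have hl2 := Finset.mem_erase.1 hl5.2
  have hp := Nat.prime_of_mem_primeFactors hl2.2
  have hf : (12 * Q).factorization l = Q.factorization l := by
    rw [Nat.factorization_mul (by norm_num) hQ.ne', Finsupp.add_apply,
      Nat.factorization_eq_zero_of_not_dvd, zero_add]
    intro h
    have h20 : 12 = 2 * 2 * 3 := by norm_num
    rw [h20] at h
    rcases hp.dvd_mul.1 h with h | h
    · rcases hp.dvd_mul.1 h with h | h <;>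
        exact hl2.1 ((Nat.prime_dvd_prime_iff_eq hp Nat.prime_two).1 h)
    · exact hl5.1 ((Nat.prime_dvd_prime_iff_eq hp (by norm_num)).1 h)
  rw [hf]
  exact S_facE hs l hp hl2.1 _

theorem prod_facE {m m0 Q : ℕ} (hm0 : 0 < m0) (h2 : m0 % 2 = 1)
    (hm : ∀ l : ℕ, l.Prime → l ≠ 2 → (l ∣ 4 * m ↔ l ∣ m0)) (hQ : 0 < Q) :
    (∏ l ∈ ((12 * Q).primeFactors.erase 2).erase 3, (if l ∣ 4 * m then (1 : ℤ) else
        ∑ j ∈ range ((12 * Q).factorization l + 1), (jacobiSym (-((4 * m : ℕ) : ℤ)) l) ^ j)) *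
      ∏ l ∈ m0.primeFactors.erase 3, (if l ∣ 12 * Q then 1 + hh (4 * m) (12 * Q) l else 1) =
    ∏ l ∈ ((12 * Q).primeFactors.erase 2).erase 3, fac (4 * m) (12 * Q) l := by
  have h4 : ∏ l ∈ m0.primeFactors.erase 3, (if l ∣ 12 * Q then 1 + hh (4 * m) (12 * Q) l else 1) =
      ∏ l ∈ ((12 * Q).primeFactors.erase 2).erase 3,
        (if l ∣ 4 * m then 1 + hh (4 * m) (12 * Q) l else 1) := by
    rw [← Finset.prod_filter, ← Finset.prod_filter]
    refine Finset.prod_congr ?_ fun _ _ => rfl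
    ext l
    rw [Finset.mem_filter, Finset.mem_filter, Finset.mem_erase, Finset.mem_erase, Finset.mem_erase,
      Nat.mem_primeFactors, Nat.mem_primeFactors]
    constructor
    · rintro ⟨⟨a0, a1, a2, _⟩, a4⟩
      have hl2 : l ≠ 2 := by
        rintro rfl
        omega
      exact ⟨⟨a0, hl2, a1, a4, by omega⟩, (hm l a1 hl2).2 a2⟩
    · rintro ⟨⟨a0, hl2, a1, a4, _⟩, a2⟩
      exact ⟨⟨a0, a1, (hm l a1 hl2).1 a2, hm0.ne'⟩, a4⟩
  rw [h4, ← Finset.prod_mul_distrib]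
  refine Finset.prod_congr rfl fun l _ => ?_
  unfold fac
  split_ifs with h
  · rw [one_mul]
  · rw [mul_one]

/-! ### the number of parameters -/

theorem XE_card {m m0 T n2 Q : ℕ} {b : ℤ} (hs : Squarefree m)
    (hm : (m % 4 = 1 ∧ m = m0 ∧ T = 4) ∨ (m % 4 = 2 ∧ m = 2 * m0 ∧ T = 8)) (hQ : 0 < Q)
    (h4 : 4 ∣ n2) (hDD : 12 * (Q : ℤ) = (4 * m : ℕ) * n2 - b ^ 2)
    (h5 : (¬ 3 ∣ m ∧ jacobiSym m 3 = 1) ∨ (3 ∣ m ∧ hh (4 * m) (12 * Q) 3 = -1)) :
    ((XE (4 * m) b Q).card : ℤ) = (TT (4 * m) Q).card *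
      ((∏ l ∈ m0.primeFactors.erase 3, (if l ∣ 12 * Q then 1 + hh (4 * m) (12 * Q) l else 1)) *
        tb b) := by
  have hm1 : 0 < m := Nat.pos_of_ne_zero hs.ne_zero
  have hm00 : 0 < m0 := by omega
  have hT : 0 < T := by omega
  have h2 : m0 % 2 = 1 := by omega
  have hn : 4 * m = m0 * T := by
    rcases hm with ⟨_, rfl, rfl⟩ | ⟨_, rfl, rfl⟩ <;> ring
  have hco : Nat.Coprime m0 T := by
    have h2c : Nat.Coprime m0 2 := ((Nat.Prime.coprime_iff_not_dvd Nat.prime_two).2 (by omega)).symm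
    rcases hm with ⟨_, _, rfl⟩ | ⟨_, _, rfl⟩
    · exact h2c.pow_right 2
    · exact h2c.pow_right 3
  have hm0m : m0 ∣ m := by
    rcases hm with ⟨_, h, _⟩ | ⟨_, h, _⟩
    · rw [h]
    · exact ⟨2, by rw [h]; ring⟩
  have hs0 : Squarefree m0 := hs.squarefree_of_dvd hm0m
  have hlm : ∀ l : ℕ, l.Prime → l ∣ m0 → l ≠ 2 ∧ l ∣ 4 * m ∧ ¬ l ^ 2 ∣ 4 * m := by
    intro l hp hl
    have hl2 : l ≠ 2 := by
      rintro rfl
      omega
    refine ⟨hl2, (hl.trans hm0m).mul_left 4, ?_⟩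
    intro h
    have hc : Nat.Coprime (l ^ 2) 4 := by
      have : Nat.Coprime l 2 := (Nat.coprime_primes hp Nat.prime_two).2 hl2
      exact Nat.Coprime.pow 2 2 this
    have h' := hc.dvd_of_dvd_mul_left h
    rw [pow_two] at h'
    exact hp.one_lt.ne' (Nat.isUnit_iff.1 (hs l h'))
  have hD0 : 0 < 12 * Q := by omega
  have hDD' : ((12 * Q : ℕ) : ℤ) = (4 * m : ℕ) * n2 - b ^ 2 := by
    push_cast
    push_cast at hDD
    exact hDD
  obtain ⟨n', rfl⟩ := h4
  -- `b` is even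
  obtain ⟨b', rfl⟩ : ∃ t, b = 2 * t := by
    obtain ⟨q, hq⟩ := sq_par b
    push_cast at hDD
    have e : 4 * (m : ℤ) * (4 * n') = 4 * (m * (4 * n')) := by ring
    rw [e] at hDD
    generalize (m : ℤ) * (4 * n') = k at hDD
    exact ⟨b / 2, by omega⟩
  have hDQ : 3 * (Q : ℤ) = 4 * (m * n') - b' ^ 2 := by
    push_cast at hDD
    linarith
  have htb : tb (2 * b') = if b' % 2 = 0 then 2 else 1 := by
    unfold tb
    split_ifs <;> omega
  -- the fibres
  have h1 : ∀ t ∈ TT (4 * m) Q,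
      (((XE (4 * m) (2 * b') Q).filter fun q => (q.1, q.2.2.1) = t).card : ℤ) =
      (∏ l ∈ m0.primeFactors.erase 3, if l ∣ 12 * Q then 1 + hh (4 * m) (12 * Q) l else 1) *
        tb (2 * b') := by
    intro t ht
    rw [fibE hn hT hm00 hco hs0 h2 (2 * b') Q t ht]
    obtain ⟨g1, g2, g3, g4, g5⟩ := (mem_TT (4 * m) Q t).1 ht
    obtain ⟨e, β⟩ := t
    simp only at g1 g2 g3 g4 g5 ⊢
    have hφ : 0 < Q / e ^ 2 := Nat.div_pos (Nat.le_of_dvd hQ g3) (pow_pos g2 2)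
    have hQe : Q = e ^ 2 * (Q / e ^ 2) := (Nat.mul_div_cancel' g3).symm
    have hg := Nat.mul_div_cancel' g5
    -- the product over the primes of `m0`
    have hC : (C e (2 * b') (12 * (Q / e ^ 2)) (6 * β)
        (12 * ((β ^ 2 + 4 * m) / (4 * (Q / e ^ 2)))) m0 : ℤ) =
        ∏ l ∈ m0.primeFactors.erase 3, if l ∣ 12 * Q then 1 + hh (4 * m) (12 * Q) l else 1 := by
      have hloc : ∀ l ∈ m0.primeFactors, l ≠ 3 → (C e (2 * b') (12 * (Q / e ^ 2)) (6 * β)
          (12 * ((β ^ 2 + 4 * m) / (4 * (Q / e ^ 2)))) l : ℤ) =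
          if l ∣ 12 * Q then 1 + hh (4 * m) (12 * Q) l else 1 := by
        intro l hl hl5
        have hl1 := Nat.prime_of_mem_primeFactors hl
        have hl2 := Nat.dvd_of_mem_primeFactors hl
        obtain ⟨q1, q2, q3⟩ := hlm l hl1 hl2
        refine C_local (k := 6) (n2 := (4 * n' : ℕ)) hl1 q1 ?_ q2 q3 hD0 hDD' ?_ ?_
        · intro h
          have e : (6 : ℕ) = 2 * 3 := by norm_num
          rw [e] at h
          rcases hl1.dvd_mul.1 h with h' | h'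
          · exact q1 ((Nat.prime_dvd_prime_iff_eq hl1 Nat.prime_two).1 h')
          · exact hl5 (three_dvd_of hl1 h')
        · rw [mul_left_comm, ← hQe]
        · generalize (β ^ 2 + 4 * m) / (4 * (Q / e ^ 2)) = g at hg ⊢
          have : 12 * (Q / e ^ 2) * (12 * g) = 36 * (4 * (Q / e ^ 2) * g) := by ring
          rw [this, hg]
          ring
      rw [C_prod _ _ _ _ _ (by omega : 0 < 12 * (Q / e ^ 2)) hs0, Nat.cast_prod]
      by_cases h5m : 3 ∣ m0
      · have h5' : 3 ∈ m0.primeFactors := Nat.mem_primeFactors.2 ⟨by norm_num, h5m, hm00.ne'⟩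
        have hb5 : (3 : ℤ) ∣ 2 * b' := by
          have p5 : Prime (3 : ℤ) := by norm_num
          have : (3 : ℤ) ∣ b' := by
            apply p5.dvd_of_dvd_pow (n := 2)
            obtain ⟨c, hc⟩ := h5m.trans hm0m
            refine ⟨4 * c * n' - Q, ?_⟩
            rw [hc] at hDQ
            push_cast at hDQ
            linear_combination hDQ
          exact this.mul_left 2
        rw [← Finset.mul_prod_erase _ _ h5',
          C_three hb5 ⟨4 * (Q / e ^ 2), by ring⟩ ⟨2 * β, by ring⟩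
            ⟨4 * ((β ^ 2 + 4 * m) / (4 * (Q / e ^ 2))), by ring⟩, Nat.cast_one, one_mul]
        refine Finset.prod_congr rfl fun l hl => ?_
        have hle := Finset.mem_erase.1 hl
        exact hloc l hle.2 hle.1
      · have h5' : 3 ∉ m0.primeFactors := fun h => h5m (Nat.dvd_of_mem_primeFactors h)
        rw [Finset.erase_eq_of_notMem h5']
        refine Finset.prod_congr rfl fun l hl => ?_
        refine hloc l hl ?_
        rintro rfl
        exact h5' hl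
    rw [Nat.cast_mul, hC]
    by_cases hP : (∏ l ∈ m0.primeFactors.erase 3,
        if l ∣ 12 * Q then 1 + hh (4 * m) (12 * Q) l else 1) = 0
    · rw [hP, zero_mul, zero_mul]
    · congr 1
      -- a solution modulo `m0`
      have hC0 : C e (2 * b') (12 * (Q / e ^ 2)) (6 * β)
        (12 * ((β ^ 2 + 4 * m) / (4 * (Q / e ^ 2)))) m0 ≠ 0 := by
        intro h
        rw [h] at hC
        exact hP hC.symm
      rw [C_eq _ _ _ _ _ _ hm00] at hC0
      obtain ⟨p, hp⟩ := Finset.card_ne_zero.1 hC0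
      have hp := (Finset.mem_filter.1 hp).2
      generalize (β ^ 2 + 4 * m) / (4 * (Q / e ^ 2)) = g at *
      generalize Q / e ^ 2 = φ at *
      -- `β` is even
      obtain ⟨β', rfl⟩ : ∃ t, β = 2 * t := by
        rcases Nat.even_or_odd' β with ⟨t, ht | ht⟩
        · exact ⟨t, ht⟩
        · exfalso
          have e1 : β ^ 2 + 4 * m = 4 * (t ^ 2 + t + m) + 1 := by rw [ht]; ring
          rw [e1, mul_assoc] at hg
          omega
      have hg' : φ * g = β' ^ 2 + m := by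
        apply Nat.eq_of_mul_eq_mul_left (by norm_num : 0 < 4)
        rw [← mul_assoc, hg]; ring
      have hg'' : g * φ = β' ^ 2 + m := by rw [mul_comm]; exact hg'
      have hgZ : (φ : ℤ) * g = β' ^ 2 + m := by exact_mod_cast hg'
      have p1 : (m0 : ℤ) ∣ (p.1 : ℤ) ^ 2 + 12 * φ := by
        exact_mod_cast Int.natCast_dvd_natCast.2 hp.2.1
      have p2 : (m0 : ℤ) ∣ 6 * (2 * (β' : ℤ)) + p.1 * p.2 := by
        exact_mod_cast Int.natCast_dvd_natCast.2 hp.2.2.1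
      have p3 : (m0 : ℤ) ∣ 12 * (g : ℤ) + p.2 ^ 2 := by
        exact_mod_cast Int.natCast_dvd_natCast.2 hp.2.2.2
      have hm' : (m % 4 = 1 ∧ m = m0) ∨ (m % 4 = 2 ∧ m = 2 * m0) := by
        rcases hm with ⟨x1, x2, _⟩ | ⟨x1, x2, _⟩
        · exact Or.inl ⟨x1, x2⟩
        · exact Or.inr ⟨x1, x2⟩
      have h25 : ¬ 9 ∣ m := fun h => by
        have := hs 3 (by norm_num; exact h)
        rw [Nat.isUnit_iff] at this
        omega
      have s1 : φ % 2 = 1 → (m % 4 = 1 → φ % 4 = 1) ∧ (m % 4 = 2 → SG φ m0) := by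
        intro hφ1
        refine recip hs hm' hg' hφ1 p1 p2 p3 ?_
        rcases h5 with h5 | ⟨h5, h5'⟩
        · exact Or.inl h5
        · refine Or.inr ⟨h5, fun x y a ha ha5 => ?_⟩
          have hv := three_val (D := 12 * Q) hg' h5 h25 (by rw [← hQe]) hD0 x y ha ha5
          rw [h5'] at hv
          linarith
      have s2 : g % 2 = 1 → (m % 4 = 1 → g % 4 = 1) ∧ (m % 4 = 2 → SG g m0) := by
        intro hg1
        refine recip hs hm' hg'' hg1 (μ := p.2) (ν := p.1)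
          (by rw [add_comm]; exact p3) (by rw [mul_comm (p.2 : ℤ)]; exact p2)
          (by rw [add_comm]; exact p1) ?_
        rcases h5 with h5 | ⟨h5, h5'⟩
        · exact Or.inl h5
        · refine Or.inr ⟨h5, fun x y a ha ha5 => ?_⟩
          have hv := three_val (D := 12 * Q) hg' h5 h25 (by rw [← hQe]) hD0 y x
            (a := a) (by rw [ha]; ring) ha5
          rw [h5'] at hv
          linarith
      rw [htb]
      have hQe' : 3 * ((e : ℤ) ^ 2 * φ) = 4 * (m * n') - b' ^ 2 := by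
        rw [← hDQ, hQe]; push_cast; ring
      rcases hm with ⟨x1, x2, x3⟩ | ⟨x1, x2, x3⟩
      · have hc := cnt_four (m := m) (φ := φ) (g := g) (β := β') (e := e) (b := b')
          (n := m * n') hgZ (by omega) hQe'
          (fun h => by have := (s1 (by omega)).1 x1; omega)
          (fun h => by have := (s2 (by omega)).1 x1; omega)
        rw [x3]
        push_cast
        push_cast at hc
        rw [hc]
        split_ifs <;> rfl
      · have hm0Z : (m : ℤ) = 2 * m0 := by rw [x2]; push_cast; ring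
        have hc := cnt_eight (m := m0) (φ := φ) (g := g) (β := β') (e := e) (b := b')
          (n := m0 * n') (by rw [hgZ, hm0Z]) (by omega) (by rw [hQe', hm0Z]; ring)
          (fun h => (s1 (by omega)).2 x1)
          (fun h => (s2 (by omega)).2 x1)
        have e8 : ((4 * m : ℕ) : ℤ) = 8 * m0 := by push_cast; rw [hm0Z]; ring
        rw [x3, e8]
        push_cast
        push_cast at hc
        rw [hc]
        split_ifs <;> rfl
  rw [Finset.card_eq_sum_card_fiberwise (f := fun q => (q.1, q.2.2.1)) (t := TT (4 * m) Q),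
    Nat.cast_sum, Finset.sum_congr rfl h1, Finset.sum_const, nsmul_eq_mul]
  intro q hq
  have hq := (Finset.mem_filter.1 (Finset.mem_coe.1 hq)).1
  unfold XX at hq
  have hq := Finset.mem_filter.1 hq
  have hq3 := Finset.mem_product.1 hq.1
  exact Finset.mem_coe.2 ((mem_TT (4 * m) Q _).2 ⟨Finset.mem_range.1 hq3.1, hq.2.1, hq.2.2.1,
    hq.2.2.2.1, hq.2.2.2.2.2.2.1⟩)

/-- the number of pairs in terms of the sum over `e` -/
theorem cpE {m n2 Q : ℕ} {b : ℤ} (hs : Squarefree m) (hm : m % 4 = 1 ∨ m % 4 = 2) (hQ : 0 < Q)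
    (h4 : 4 ∣ n2) (hDD : ((12 * Q : ℕ) : ℤ) = (4 * m : ℕ) * n2 - b ^ 2)
    (h5 : (¬ 3 ∣ m ∧ jacobiSym m 3 = 1) ∨ (3 ∣ m ∧ hh (4 * m) (12 * Q) 3 = -1)) :
    (cp (4 * m : ℕ) b n2 : ℤ) = 12 * ((S m (3 ^ Q.factorization 3) : ℤ) *
      (tb b * ∏ l ∈ ((12 * Q).primeFactors.erase 2).erase 3, fac (4 * m) (12 * Q) l)) := by
  obtain ⟨m0, T, hmT⟩ : ∃ m0 T, (m % 4 = 1 ∧ m = m0 ∧ T = 4) ∨ (m % 4 = 2 ∧ m = 2 * m0 ∧ T = 8) := by
    rcases hm with hm | hm
    · exact ⟨m, 4, Or.inl ⟨hm, rfl, rfl⟩⟩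
    · exact ⟨m / 2, 8, Or.inr ⟨hm, by omega, rfl⟩⟩
  have hm1 : 0 < m := Nat.pos_of_ne_zero hs.ne_zero
  have hDD' : 12 * (Q : ℤ) = (4 * m : ℕ) * n2 - b ^ 2 := by
    rw [← hDD]; push_cast; ring
  have hX := XE_card hs hmT hQ h4 hDD' h5
  have hcnt := cnt_even hs hm hQ hDD'
  have hpf := prod_facE (m := m) (m0 := m0) (Q := Q) (by omega) (by omega) (fun l hp hl => by
    constructor
    · intro h
      have h' : l ∣ m := by
        rcases hp.dvd_mul.1 h with h | h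
        · exfalso
          have : l ∣ 2 ^ 2 := by norm_num; exact h
          exact hl ((Nat.prime_dvd_prime_iff_eq hp Nat.prime_two).1 (hp.dvd_of_dvd_pow this))
        · exact h
      rcases hmT with ⟨_, h1, _⟩ | ⟨_, h1, _⟩
      · rw [← h1]; exact h'
      · rw [h1] at h'
        rcases hp.dvd_mul.1 h' with h'' | h''
        · exact absurd ((Nat.prime_dvd_prime_iff_eq hp Nat.prime_two).1 h'') hl
        · exact h''
    · intro h
      have h' : l ∣ m := by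
        rcases hmT with ⟨_, h1, _⟩ | ⟨_, h1, _⟩
        · rw [h1]; exact h
        · rw [h1]; exact h.mul_left 2
      exact h'.mul_left 4) hQ
  rw [← card_pairs, hcnt, Nat.cast_mul, hX, card_TTE m Q hQ, S_allE hs hm hQ, ← hpf]
  push_cast
  ring

theorem S_at_three {m : ℕ} (hs : Squarefree m) (h5 : ¬ 3 ∣ m) (hJ : jacobiSym m 3 = 1) (V : ℕ) :
    (S m (3 ^ V) : ℤ) = if Even V then 1 else 0 := by
  have hm1 : 0 < m := Nat.pos_of_ne_zero hs.ne_zero
  rw [S_unram m hm1 3 (by norm_num) (by norm_num) h5, J3_neg, hJ, neg_one_geom_sum]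
  rcases Nat.even_or_odd V with h | h
  · rw [if_pos h, if_neg (by rw [Nat.even_add_one]; exact fun h' => h' h)]
  · have h1 : ¬ Even V := Nat.not_even_iff_odd.2 h
    have h2 : Even (V + 1) := h.add_one
    rw [if_neg h1, if_pos h2]

/-- PCE -/
theorem t_PCE : S_PCE := by
  intro n1 n2 b D hEv h23 h4 hD hDD
  obtain ⟨m, rfl, hs, hm⟩ := hEv
  have h5 : ¬ 3 ∣ m := by omega
  have hJ : jacobiSym m 3 = 1 := J3_one m (by omega)
  by_cases h20 : 12 ∣ D
  · obtain ⟨Q, rfl⟩ := h20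
    have hQ : 0 < Q := by omega
    rw [cpE hs hm hQ h4 hDD (Or.inl ⟨h5, hJ⟩), S_at_three hs h5 hJ]
    have hv5 := fact3 hQ
    unfold locE
    rw [hv5]
    rcases Nat.even_or_odd (Q.factorization 3) with h | h
    · rw [if_pos h, if_pos h.add_one, one_mul]
    · rw [if_neg (by rw [Nat.not_even_iff_odd]; exact h),
        if_neg (by rw [Nat.not_odd_iff_even]; exact h.add_one), zero_mul]
  · rw [← card_pairs, no_pairs hDD h20]
    unfold locE
    split_ifs with h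
    · have h5D : 3 ∣ D := by
        by_contra hc
        rw [Nat.factorization_eq_zero_of_not_dvd hc] at h
        exact absurd h (by decide)
      have h4D : ¬ 4 ∣ D := by
        intro h4
        exact h20 (Nat.Coprime.mul_dvd_of_dvd_of_dvd (by norm_num : Nat.Coprime 4 3) h4 h5D)
      have htb : tb b = 0 := by
        obtain ⟨q, hq⟩ := sq_par b
        have e : (((4 * m : ℕ) : ℤ)) * n2 = 4 * (m * n2) := by push_cast; ring
        rw [e] at hDD
        generalize (m : ℤ) * n2 = k at hDD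
        unfold tb
        split_ifs <;> omega
      rw [htb]
      simp
    · simp

theorem hh_pm {n1 D : ℕ} (h25 : ¬ 9 ∣ n1) (h5 : 3 ∣ n1) (hD : 0 < D) :
    hh n1 D 3 = 1 ∨ hh n1 D 3 = -1 := by
  have p5 : Nat.Prime 3 := by norm_num
  have h1 : ¬ 3 ∣ D / 3 ^ D.factorization 3 := Nat.not_dvd_ordCompl p5 hD.ne'
  obtain ⟨c, rfl⟩ := h5
  have hc : ¬ 3 ∣ c := by
    rintro ⟨a, rfl⟩
    exact h25 ⟨a, by ring⟩
  unfold hh
  split_ifs
  · apply jac_pm
    intro p hp h5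
    rw [three_dvd_of hp h5]
    intro h
    exact h1 (by exact_mod_cast (Int.dvd_neg).1 h)
  · apply jac_pm
    intro p hp h5
    rw [three_dvd_of hp h5, Nat.mul_div_cancel_left _ (by norm_num : 0 < 3)]
    intro h
    have h2 : 3 ∣ c * (D / 3 ^ D.factorization 3) := by exact_mod_cast (Int.dvd_neg).1 h
    rcases p5.dvd_mul.1 h2 with h3 | h3
    · exact hc h3
    · exact h1 h3

/-- PC3E -/
theorem t_PC3E : S_PC3E := by
  intro n1 n2 b D hEv h5 h4 hD hDD
  obtain ⟨m, rfl, hs, hm⟩ := hEv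
  have h5m : 3 ∣ m := by
    rcases (Nat.Prime.dvd_mul (by norm_num : Nat.Prime 3)).1 h5 with h | h
    · exact absurd h (by norm_num)
    · exact h
  have h25m : ¬ 9 ∣ m := not_nine hs
  have h25 : ¬ 9 ∣ 4 * m := fun h =>
    h25m ((by norm_num : Nat.Coprime 9 4).dvd_of_dvd_mul_left h)
  unfold loc3E
  split_ifs with h5D
  · by_cases h20 : 12 ∣ D
    · obtain ⟨Q, rfl⟩ := h20
      have hQ : 0 < Q := by omega
      rcases hh_pm h25 h5 hD with hp | hp
      · -- no pairs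
        rw [hp]
        have h0 : cp (4 * m : ℕ) b n2 = 0 := by
          by_contra h1
          unfold cp at h1
          obtain ⟨q, hq⟩ := Finset.card_ne_zero.1 h1
          rw [Finset.mem_filter, Finset.mem_product, mem_vec, mem_vec, ip_eq] at hq
          obtain ⟨⟨hv, hw⟩, hvw⟩ := hq
          have h2 := hh_three h25 h5 hD hDD hv hw hvw
          rw [hp] at h2
          norm_num at h2
        rw [h0]
        simp
      · rw [cpE hs hm hQ h4 hDD (Or.inr ⟨h5m, hp⟩), hp]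
        have hm1 : 0 < m := Nat.pos_of_ne_zero hs.ne_zero
        rw [S_ram m hm1 3 (by norm_num) h5m (by norm_num; exact h25m)]
        push_cast
        ring
    · have h4D : ¬ 4 ∣ D := by
        intro h4
        exact h20 (Nat.Coprime.mul_dvd_of_dvd_of_dvd (by norm_num : Nat.Coprime 4 3) h4 h5D)
      have htb : tb b = 0 := by
        obtain ⟨q, hq⟩ := sq_par b
        have e : (((4 * m : ℕ) : ℤ)) * n2 = 4 * (m * n2) := by push_cast; ring
        rw [e] at hDD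
        generalize (m : ℤ) * n2 = k at hDD
        unfold tb
        split_ifs <;> omega
      rw [← card_pairs, no_pairs hDD h20, htb]
      simp
  · have h20 : ¬ 12 ∣ D := fun h => h5D (dvd_trans (by norm_num) h)
    rw [← card_pairs, no_pairs hDD h20]
    simp

end Pool.Agent.N878.PC21
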