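import Pool.Agent.N878.PC21.Cnt

/-!
The parameters for all odd squarefree norms: the inverse of the Gram matrix is automatically
integral and even (project P21, part PC).
-/

set_option autoImplicit false
set_option linter.all false

namespace Pool.Agent.N878.PC21

open Finset Matrix

theorem div_six {n1 : ℕ} (hs : Squarefree n1) (h2 : Nat.Coprime n1 2) {X : ℤ}
    (h : (n1 : ℤ) ∣ 6 * X) (h5 : (3 : ℤ) ∣ n1 → (3 : ℤ) ∣ X) : (n1 : ℤ) ∣ X := by
  by_cases h5n : 3 ∣ n1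
  · obtain ⟨c, rfl⟩ := h5n
    have hc5 : Nat.Coprime 3 c := by
      rw [Nat.Prime.coprime_iff_not_dvd (by norm_num)]
      rintro ⟨a, rfl⟩
      have := hs 3 ⟨a, by ring⟩
      rw [Nat.isUnit_iff] at this
      omega
    have hc2 : Nat.Coprime c 2 := Nat.Coprime.coprime_mul_left h2
    have hc10 : Nat.Coprime c 6 := by
      have : (6 : ℕ) = 2 * 3 := by norm_num
      rw [this]
      exact Nat.Coprime.mul_right hc2 hc5.symm
    have g1 : (c : ℤ) ∣ X := by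
      have i1 : IsCoprime (c : ℤ) (6 : ℤ) := by
        have := Nat.isCoprime_iff_coprime.2 hc10
        exact_mod_cast this
      apply i1.dvd_of_dvd_mul_left
      refine dvd_trans ⟨3, ?_⟩ h
      push_cast
      ring
    have g2 : (3 : ℤ) ∣ X := h5 ⟨c, by push_cast; ring⟩
    have i2 : IsCoprime (3 : ℤ) (c : ℤ) := by
      have := Nat.isCoprime_iff_coprime.2 hc5
      exact_mod_cast this
    have := i2.mul_dvd g2 g1
    push_cast
    exact this
  · have h10 : Nat.Coprime n1 6 := by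
      have : (6 : ℕ) = 2 * 3 := by norm_num
      rw [this]
      exact Nat.Coprime.mul_right h2 ((Nat.Prime.coprime_iff_not_dvd (by norm_num)).2 h5n).symm
    have i1 : IsCoprime (n1 : ℤ) (6 : ℤ) := by
      have := Nat.isCoprime_iff_coprime.2 h10
      exact_mod_cast this
    exact i1.dvd_of_dvd_mul_left h

/-- the arithmetic of the inverse of the Gram matrix -/
theorem inv_arithG {n1 : ℕ} (hs : Squarefree n1) (h2 : Nat.Coprime n1 2) {μ ν β φ g d ee f : ℤ}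
    (hd : n1 * d = μ ^ 2 + 12 * φ) (hg : 4 * φ * g = β ^ 2 + n1)
    (hee : n1 * ee = 6 * β + μ * ν) (hf : n1 * f = 12 * g + ν ^ 2) :
    Ext n1 μ β ν φ g := by
  have hn0 : (0 : ℤ) < n1 := by exact_mod_cast Nat.pos_of_ne_zero hs.ne_zero
  have hx10 : (n1 : ℤ) ∣ 6 * (β * ν - 2 * g * μ) := by
    refine ⟨ee * ν - μ * f, ?_⟩
    linear_combination (-ν) * hee + μ * hf
  have hy10 : (n1 : ℤ) ∣ 6 * (β * μ - 2 * φ * ν) := by
    refine ⟨ee * μ - ν * d, ?_⟩
    linear_combination (-μ) * hee + ν * hd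
  have h5x : (3 : ℤ) ∣ n1 → (3 : ℤ) ∣ β * ν - 2 * g * μ ∧ (3 : ℤ) ∣ β * μ - 2 * φ * ν := by
    rintro ⟨c, hc⟩
    have p5 : Prime (3 : ℤ) := by norm_num
    have hμ : (3 : ℤ) ∣ μ := by
      apply p5.dvd_of_dvd_pow (n := 2)
      refine ⟨c * d - 4 * φ, ?_⟩
      linear_combination d * hc - hd
    have hν : (3 : ℤ) ∣ ν := by
      apply p5.dvd_of_dvd_pow (n := 2)
      refine ⟨c * f - 4 * g, ?_⟩
      linear_combination f * hc - hf
    exact ⟨Dvd.dvd.sub (hν.mul_left _) (hμ.mul_left _), Dvd.dvd.sub (hμ.mul_left _) (hν.mul_left _)⟩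
  have hx : (n1 : ℤ) ∣ β * ν - 2 * g * μ := div_six hs h2 hx10 fun h => (h5x h).1
  have hy : (n1 : ℤ) ∣ β * μ - 2 * φ * ν := div_six hs h2 hy10 fun h => (h5x h).2
  obtain ⟨x, hx⟩ := hx
  obtain ⟨y, hy⟩ := hy
  -- `2 φ x + β y = - μ`, `β x + 2 γ y = - ν`
  have e1 : 2 * φ * x + β * y = -μ := by
    apply mul_left_cancel₀ hn0.ne'
    linear_combination (-(2 * φ)) * hx - β * hy - μ * hg
  have e2 : β * x + 2 * g * y = -ν := by
    apply mul_left_cancel₀ hn0.ne'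
    linear_combination (-β) * hx - (2 * g) * hy - ν * hg
  obtain ⟨q, hq⟩ : ∃ q, q = 3 + φ * x ^ 2 + β * x * y + g * y ^ 2 := ⟨_, rfl⟩
  have f1 : 4 * φ * q = n1 * (d + y ^ 2) := by
    rw [hq]
    linear_combination (2 * φ * x + β * y - μ) * e1 - hd + y ^ 2 * hg
  have f2 : 4 * g * q = n1 * (f + x ^ 2) := by
    rw [hq]
    linear_combination (β * x + 2 * g * y - ν) * e2 - hf + x ^ 2 * hg
  have f3 : 2 * β * q = n1 * (ee - x * y) := by
    rw [hq]
    linear_combination (β * x + 2 * g * y) * e1 - μ * e2 - hee - x * y * hg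
  have f4 : 4 * q ^ 2 = n1 * ((d + y ^ 2) * (f + x ^ 2) - (ee - x * y) ^ 2) := by
    apply mul_left_cancel₀ hn0.ne'
    have : (n1 : ℤ) * (4 * q ^ 2) = (4 * φ * q) * (4 * g * q) - (2 * β * q) ^ 2 := by
      linear_combination (-(4 * q ^ 2)) * hg
    rw [this, f1, f2, f3]
    ring
  have hc4 : IsCoprime (n1 : ℤ) (4 : ℤ) := by
    have h4 : Nat.Coprime n1 (2 ^ 2) := h2.pow_right 2
    have := Nat.isCoprime_iff_coprime.2 h4
    exact_mod_cast this
  have f5 : (n1 : ℤ) ∣ q ^ 2 := by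
    apply hc4.dvd_of_dvd_mul_left
    exact ⟨_, f4⟩
  have f6 : (n1 : ℤ) ∣ q := by
    have hsZ : Squarefree (n1 : ℤ) := Int.squarefree_natCast.2 hs
    exact (hsZ.dvd_pow_iff_dvd two_ne_zero).1 f5
  obtain ⟨α, hα⟩ := f6
  exact ⟨x, y, α, hx.symm, hy.symm, by rw [← hα, hq]⟩

open Classical in
/-- for an odd squarefree norm the condition on the inverse is automatic -/
theorem XX_eq {n1 : ℕ} (hs : Squarefree n1) (h2 : Nat.Coprime n1 2) (b : ℤ) (Q : ℕ) :
    XX n1 b Q = XX0 n1 b Q := by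
  unfold XX
  apply Finset.filter_true_of_mem
  intro q hq
  unfold XX0 at hq
  have hq := (Finset.mem_filter.1 hq).2
  obtain ⟨h1, h2', h3, h4, h5, h6, h7, h8⟩ := hq
  have k1 := Nat.mul_div_cancel' h5
  have k2 := Nat.mul_div_cancel' h6
  have k3 := Nat.mul_div_cancel' h7
  have k4 := Nat.mul_div_cancel' h8
  refine inv_arithG hs h2 (d := ((q.2.1 ^ 2 + 12 * (Q / q.1 ^ 2)) / n1 : ℕ))
    (ee := ((6 * q.2.2.1 + q.2.1 * q.2.2.2) / n1 : ℕ))
    (f := ((12 * ((q.2.2.1 ^ 2 + n1) / (4 * (Q / q.1 ^ 2))) + q.2.2.2 ^ 2) / n1 : ℕ)) ?_ ?_ ?_ ?_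
  · exact_mod_cast k1
  · exact_mod_cast k2
  · exact_mod_cast k3
  · exact_mod_cast k4

end Pool.Agent.N878.PC21
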