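import Pool.Agent.N575.P15.PCE

/-!
# The number of pairs with given Gram matrix for an even norm, part one: the prime two
(project P21, part PCE)
-/

set_option autoImplicit false
set_option linter.all false

namespace Pool.Agent.N878.PC21

open Finset
open Pool.Agent.N575.P15.PCE (graph_card graph_card' even_of_sq card4_even card4_two card8_two
  card8_a card8_b sq_par exists_kap)

/-- the conditions modulo `T` without the inner product -/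
def CS (T n1 φ g β μ ν : ℤ) : Prop :=
  T ∣ μ ^ 2 + 12 * φ ∧ T ∣ 6 * β + μ * ν ∧ T ∣ 12 * g + ν ^ 2 ∧
    T ∣ β * ν - 2 * g * μ ∧ T ∣ β * μ - 2 * φ * ν ∧
    T ^ 2 ∣ 3 * n1 + (g * μ ^ 2 - β * μ * ν + φ * ν ^ 2)

instance (T n1 φ g β μ ν : ℤ) : Decidable (CS T n1 φ g β μ ν) := by
  unfold CS
  infer_instance

theorem CS_symm {T n1 φ g β μ ν : ℤ} : CS T n1 φ g β μ ν ↔ CS T n1 g φ β ν μ := by
  unfold CS
  have e1 : μ ^ 2 + 12 * φ = 12 * φ + μ ^ 2 := by ring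
  have e2 : 6 * β + μ * ν = 6 * β + ν * μ := by ring
  have e3 : ν ^ 2 + 12 * g = 12 * g + ν ^ 2 := by ring
  have e4 : 3 * n1 + (φ * ν ^ 2 - β * ν * μ + g * μ ^ 2) =
      3 * n1 + (g * μ ^ 2 - β * μ * ν + φ * ν ^ 2) := by ring
  rw [e1, e2, e3, e4]
  tauto

theorem chk4E : ∀ g β μ ν : ZMod 4, g = β ^ 2 + 1 →
    (3 + (g * μ ^ 2 - 2 * β * μ * ν + ν ^ 2) = 0 ↔ 2 * (ν - (β + 1) * μ - 1) = 0) := by
  decide

/-- `T = 4`, an odd first coefficient -/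
theorem CS_four {m φ g β μ ν : ℤ} (hg : φ * g = β ^ 2 + m) (hm : m % 4 = 1) (hφ : φ % 4 = 1) :
    CS 4 (4 * m) φ g (2 * β) μ ν ↔ μ % 2 = 0 ∧ (4 : ℤ) ∣ ν - ((β + 1) * μ + 2) := by
  have hm4 : (m : ZMod 4) = 1 := by
    have := (ZMod.intCast_eq_intCast_iff' m 1 4).2 (by push_cast; omega)
    rw [this]; rfl
  have hφ4 : (φ : ZMod 4) = 1 := by
    have := (ZMod.intCast_eq_intCast_iff' φ 1 4).2 (by push_cast; omega)
    rw [this]; rfl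
  have hg4 : (g : ZMod 4) = (β : ZMod 4) ^ 2 + 1 := by
    have := congrArg (fun z : ℤ => (z : ZMod 4)) hg
    push_cast at this
    rw [hφ4, hm4, one_mul] at this
    exact this
  have key : ∀ μ' ν' : ℤ, ((4 : ℤ) ∣ 3 * m + (g * μ' ^ 2 - 2 * β * μ' * ν' + φ * ν' ^ 2)) ↔
      (4 : ℤ) ∣ 2 * (ν' - (β + 1) * μ' - 1) := by
    intro μ' ν'
    have h1 := chk4E g β μ' ν' hg4
    have e1 : ((4 : ℕ) : ℤ) = 4 := rfl
    rw [← e1, ← ZMod.intCast_zmod_eq_zero_iff_dvd, ← ZMod.intCast_zmod_eq_zero_iff_dvd]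
    push_cast
    rw [hφ4, hm4, mul_one, one_mul]
    exact h1
  constructor
  · rintro ⟨h1, h2, h3, h4, h5, h6⟩
    obtain ⟨μ', rfl⟩ := even_of_sq (k := 3 * φ) (by
      have : μ ^ 2 + 4 * (3 * φ) = μ ^ 2 + 12 * φ := by ring
      rw [this]; exact h1)
    obtain ⟨ν', rfl⟩ := even_of_sq (k := 3 * g) (by
      have : ν ^ 2 + 4 * (3 * g) = 12 * g + ν ^ 2 := by ring
      rw [this]; exact h3)
    have h7 : (4 : ℤ) ∣ 3 * m + (g * μ' ^ 2 - 2 * β * μ' * ν' + φ * ν' ^ 2) := by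
      apply Int.dvd_of_mul_dvd_mul_left (a := 4) (by norm_num)
      have e : 3 * (4 * m) + (g * (2 * μ') ^ 2 - 2 * β * (2 * μ') * (2 * ν') + φ * (2 * ν') ^ 2) =
        4 * (3 * m + (g * μ' ^ 2 - 2 * β * μ' * ν' + φ * ν' ^ 2)) := by ring
      rw [e] at h6
      exact h6
    have h8 := (key _ _).1 h7
    refine ⟨by omega, ?_⟩
    have e : 2 * ν' - ((β + 1) * (2 * μ') + 2) = 2 * (ν' - (β + 1) * μ' - 1) := by ring
    rw [e]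
    exact h8
  · rintro ⟨h1, r, hr⟩
    obtain ⟨μ', rfl⟩ : ∃ t, μ = 2 * t := ⟨μ / 2, by omega⟩
    obtain ⟨ν', hν', rfl⟩ : ∃ t, t = (β + 1) * μ' + 1 + 2 * r ∧ ν = 2 * t :=
      ⟨_, rfl, by linear_combination hr⟩
    have h7 : (4 : ℤ) ∣ 3 * m + (g * μ' ^ 2 - 2 * β * μ' * ν' + φ * ν' ^ 2) := by
      rw [key]
      exact ⟨r, by rw [hν']; ring⟩
    refine ⟨⟨μ' ^ 2 + 3 * φ, by ring⟩, ⟨3 * β + μ' * ν', by ring⟩, ⟨3 * g + ν' ^ 2, by ring⟩,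
      ⟨β * ν' - g * μ', by ring⟩, ⟨β * μ' - φ * ν', by ring⟩, ?_⟩
    obtain ⟨c, hc⟩ := h7
    exact ⟨c, by linear_combination 4 * hc⟩

/-- the sign condition at two for `n1 = 8 m'` -/
def SG (φ m : ℤ) : Prop := φ % 8 = 5 ∨ (φ % 8 = 7 ∧ m % 4 = 1) ∨ (φ % 8 = 3 ∧ m % 4 = 3)

theorem key8 {m φ g β μ ν s : ℤ} (hg : φ * g = β ^ 2 + 2 * m) (hs : φ * ν - β * μ = 2 * s)
    (hμ : μ % 2 = 1) (hφ : φ % 2 = 1) :
    (16 : ℤ) ∣ 6 * m + (g * μ ^ 2 - 2 * β * μ * ν + φ * ν ^ 2) ↔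
      (8 : ℤ) ∣ 3 * m * φ + m + 2 * s ^ 2 := by
  obtain ⟨k, rfl⟩ : ∃ t, μ = 2 * t + 1 := ⟨μ / 2, by omega⟩
  obtain ⟨t, ht⟩ : ∃ t, k * (k + 1) = 2 * t := by
    have := Int.even_mul_succ_self k
    obtain ⟨t, ht⟩ := this
    exact ⟨t, by linarith⟩
  have e : φ * (6 * m + (g * (2 * k + 1) ^ 2 - 2 * β * (2 * k + 1) * ν + φ * ν ^ 2)) =
      2 * (3 * m * φ + m + 2 * s ^ 2) + 16 * (m * t) := by
    linear_combination (2 * k + 1) ^ 2 * hg + (φ * ν - β * (2 * k + 1) + 2 * s) * hs + 8 * m * ht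
  have hc : IsCoprime (16 : ℤ) φ := by
    have h1 : IsCoprime (2 : ℤ) φ := by
      refine ⟨-((φ - 1) / 2), 1, ?_⟩
      omega
    have h2 : IsCoprime ((2 : ℤ) ^ 4) φ := h1.pow_left
    norm_num at h2
    exact h2
  constructor
  · intro h
    have h1 : (16 : ℤ) ∣ 2 * (3 * m * φ + m + 2 * s ^ 2) + 16 * (m * t) := by
      rw [← e]
      exact h.mul_left _
    have h2 : (16 : ℤ) ∣ 2 * (3 * m * φ + m + 2 * s ^ 2) := by
      have := Int.dvd_sub h1 (Dvd.intro (m * t) rfl)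
      rwa [add_sub_cancel_right] at this
    have e16 : (16 : ℤ) = 2 * 8 := by norm_num
    rw [e16] at h2
    exact Int.dvd_of_mul_dvd_mul_left (by norm_num) h2
  · intro h
    apply hc.dvd_of_dvd_mul_left
    rw [e]
    have e16 : (16 : ℤ) = 2 * 8 := by norm_num
    refine Dvd.dvd.add ?_ (Dvd.intro _ rfl)
    rw [e16]
    exact mul_dvd_mul_left _ h

theorem sgn8 {m φ s : ℤ} (hm : m % 2 = 1) :
    (φ % 8 = 5 → ((8 : ℤ) ∣ 3 * m * φ + m + 2 * s ^ 2 ↔ s % 2 = 0)) ∧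
    ((φ % 8 = 7 ∧ m % 4 = 1) ∨ (φ % 8 = 3 ∧ m % 4 = 3) →
      ((8 : ℤ) ∣ 3 * m * φ + m + 2 * s ^ 2 ↔ s % 2 = 1)) := by
  have hs : ∃ q, (s % 2 = 0 ∧ s ^ 2 = 4 * q) ∨ (s % 2 = 1 ∧ s ^ 2 = 4 * q + 1) := by
    rcases Int.emod_two_eq_zero_or_one s with hs | hs
    · obtain ⟨t, rfl⟩ : ∃ t, s = 2 * t := ⟨s / 2, by omega⟩
      exact ⟨t ^ 2, Or.inl ⟨hs, by ring⟩⟩
    · obtain ⟨t, rfl⟩ : ∃ t, s = 2 * t + 1 := ⟨s / 2, by omega⟩
      exact ⟨t ^ 2 + t, Or.inr ⟨hs, by ring⟩⟩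
  obtain ⟨q, hq⟩ := hs
  constructor
  · intro h
    obtain ⟨f, rfl⟩ : ∃ f, φ = 8 * f + 5 := ⟨φ / 8, by omega⟩
    have e : 3 * m * (8 * f + 5) + m + 2 * s ^ 2 = 8 * (3 * (m * f) + 2 * m) + 2 * s ^ 2 := by ring
    rw [e]
    generalize 3 * (m * f) + 2 * m = c
    omega
  · rintro (⟨h, h'⟩ | ⟨h, h'⟩)
    · obtain ⟨f, rfl⟩ : ∃ f, φ = 8 * f + 7 := ⟨φ / 8, by omega⟩
      obtain ⟨j, rfl⟩ : ∃ j, m = 4 * j + 1 := ⟨m / 4, by omega⟩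
      have e : 3 * (4 * j + 1) * (8 * f + 7) + (4 * j + 1) + 2 * s ^ 2 =
        8 * (3 * ((4 * j + 1) * f) + 11 * j + 2) + 6 + 2 * s ^ 2 := by ring
      rw [e]
      generalize 3 * ((4 * j + 1) * f) + 11 * j + 2 = c
      omega
    · obtain ⟨f, rfl⟩ : ∃ f, φ = 8 * f + 3 := ⟨φ / 8, by omega⟩
      obtain ⟨j, rfl⟩ : ∃ j, m = 4 * j + 3 := ⟨m / 4, by omega⟩
      have e : 3 * (4 * j + 3) * (8 * f + 3) + (4 * j + 3) + 2 * s ^ 2 =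
        8 * (3 * ((4 * j + 3) * f) + 5 * j + 3) + 6 + 2 * s ^ 2 := by ring
      rw [e]
      generalize 3 * ((4 * j + 3) * f) + 5 * j + 3 = c
      omega

/-- `T = 8`, an odd first coefficient -/
theorem CS_eight {m φ g β μ ν κ σ : ℤ} (hg : φ * g = β ^ 2 + 2 * m) (hm : m % 2 = 1)
    (hφ : (φ % 8 = 5 ∧ σ = 0) ∨ (((φ % 8 = 7 ∧ m % 4 = 1) ∨ (φ % 8 = 3 ∧ m % 4 = 3)) ∧ σ = 1))
    (hκ : (4 : ℤ) ∣ κ * φ - (β + 2 * σ)) :
    CS 8 (8 * m) φ g (2 * β) μ ν ↔ μ % 4 = 2 ∧ (8 : ℤ) ∣ ν - κ * μ := by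
  have hφ2 : φ % 2 = 1 := by omega
  have hmain : ∀ s : ℤ, (8 : ℤ) ∣ 3 * m * φ + m + 2 * s ^ 2 ↔ (2 : ℤ) ∣ s - σ := by
    intro s
    rcases hφ with ⟨h1, h2⟩ | ⟨h1, h2⟩
    · rw [(sgn8 (s := s) hm).1 h1, h2]; omega
    · rw [(sgn8 (s := s) hm).2 h1, h2]; omega
  have hc4 : IsCoprime (4 : ℤ) φ := by
    have h1 : IsCoprime (2 : ℤ) φ := ⟨-((φ - 1) / 2), 1, by omega⟩
    have h2 : IsCoprime ((2 : ℤ) ^ 2) φ := h1.pow_left
    norm_num at h2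
    exact h2
  constructor
  · rintro ⟨h1, h2, h3, h4, h5, h6⟩
    obtain ⟨μ', rfl⟩ := even_of_sq (k := 3 * φ) (by
      have : μ ^ 2 + 4 * (3 * φ) = μ ^ 2 + 12 * φ := by ring
      rw [this]; exact dvd_trans (by norm_num) h1)
    obtain ⟨ν', rfl⟩ := even_of_sq (k := 3 * g) (by
      have : ν ^ 2 + 4 * (3 * g) = 12 * g + ν ^ 2 := by ring
      rw [this]; exact dvd_trans (by norm_num) h3)
    have hμ' : μ' % 2 = 1 := by
      by_contra hc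
      obtain ⟨t, rfl⟩ : ∃ t, μ' = 2 * t := ⟨μ' / 2, by omega⟩
      have e : (2 * (2 * t)) ^ 2 + 12 * φ = 8 * (2 * t ^ 2) + 12 * φ := by ring
      rw [e] at h1
      omega
    obtain ⟨s, hs⟩ : ∃ s, φ * ν' - β * μ' = 2 * s := by
      have e : 2 * β * (2 * μ') - 2 * φ * (2 * ν') = 4 * -(φ * ν' - β * μ') := by ring
      rw [e] at h5
      refine ⟨(φ * ν' - β * μ') / 2, ?_⟩
      omega
    have h7 : (16 : ℤ) ∣ 6 * m + (g * μ' ^ 2 - 2 * β * μ' * ν' + φ * ν' ^ 2) := by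
      apply Int.dvd_of_mul_dvd_mul_left (a := 4) (by norm_num)
      have e : 3 * (8 * m) + (g * (2 * μ') ^ 2 - 2 * β * (2 * μ') * (2 * ν') + φ * (2 * ν') ^ 2) =
        4 * (6 * m + (g * μ' ^ 2 - 2 * β * μ' * ν' + φ * ν' ^ 2)) := by ring
      rw [e] at h6
      norm_num at h6 ⊢
      exact h6
    rw [key8 hg hs hμ' hφ2, hmain] at h7
    refine ⟨by omega, ?_⟩
    have e : 2 * ν' - κ * (2 * μ') = 2 * (ν' - κ * μ') := by ring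
    rw [e]
    have e8 : (8 : ℤ) = 2 * 4 := by norm_num
    rw [e8]
    apply mul_dvd_mul_left
    apply hc4.dvd_of_dvd_mul_left
    obtain ⟨c, hc⟩ := h7
    obtain ⟨d, hd⟩ := hκ
    obtain ⟨k, hk⟩ : ∃ k, μ' = 2 * k + 1 := ⟨μ' / 2, by omega⟩
    refine ⟨c - d * μ' - σ * k, ?_⟩
    linear_combination hs - μ' * hd + 2 * hc - 2 * σ * hk
  · rintro ⟨h1, r, hr⟩
    obtain ⟨μ', rfl⟩ : ∃ t, μ = 2 * t := ⟨μ / 2, by omega⟩
    have hμ' : μ' % 2 = 1 := by omega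
    obtain ⟨ν', hν', rfl⟩ : ∃ t, t = κ * μ' + 4 * r ∧ ν = 2 * t :=
      ⟨_, rfl, by linear_combination hr⟩
    obtain ⟨d, hd⟩ := hκ
    obtain ⟨k, hk⟩ : ∃ k, μ' = 2 * k + 1 := ⟨μ' / 2, by omega⟩
    obtain ⟨s, hs', hs⟩ : ∃ s, s = σ * μ' + 2 * d * μ' + 2 * φ * r ∧ φ * ν' - β * μ' = 2 * s :=
      ⟨_, rfl, by rw [hν']; linear_combination μ' * hd⟩
    have h7 : (16 : ℤ) ∣ 6 * m + (g * μ' ^ 2 - 2 * β * μ' * ν' + φ * ν' ^ 2) := by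
      rw [key8 hg hs hμ' hφ2, hmain]
      exact ⟨σ * k + d * μ' + φ * r, by rw [hs', hk]; ring⟩
    -- parities
    have p0 : ∃ f, φ = 2 * f + 1 := ⟨φ / 2, by omega⟩
    obtain ⟨f, hf⟩ := p0
    have p1 : ∃ c, ν' = β + 2 * c := by
      refine ⟨2 * r + κ * k - κ * f + 2 * d + σ, ?_⟩
      rw [hν']
      linear_combination κ * hk + hd - κ * hf
    obtain ⟨c, hc⟩ := p1
    obtain ⟨w, hw⟩ : ∃ w, β * (β + 1) = 2 * w := by
      obtain ⟨w, hw⟩ := Int.even_mul_succ_self β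
      exact ⟨w, by linarith⟩
    have p2 : ∃ c', g = β + 2 * c' := by
      refine ⟨m - f * g + w - β, ?_⟩
      linear_combination hg - g * hf + hw
    obtain ⟨c', hc'⟩ := p2
    refine ⟨?_, ?_, ?_, ?_, ?_, ?_⟩
    · refine ⟨2 * k ^ 2 + 2 * k + 3 * f + 2, ?_⟩
      rw [hk, hf]; ring
    · refine ⟨2 * β + c + k * ν', ?_⟩
      rw [hk]
      linear_combination 4 * hc
    · refine ⟨β + w + 3 * c' + 2 * β * c + 2 * c ^ 2, ?_⟩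
      rw [hc, hc']
      linear_combination 4 * hw
    · refine ⟨β * c + w - β - c' - g * k, ?_⟩
      rw [hk, hc]
      linear_combination 4 * hw - 4 * hc'
    · refine ⟨β * k - c - f * ν', ?_⟩
      rw [hk, hf]
      linear_combination (-4) * hc
    · obtain ⟨c'', hc''⟩ := h7
      exact ⟨c'', by linear_combination 4 * hc''⟩

end Pool.Agent.N878.PC21
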