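import Pool.Agent.N878.PC21.PE1

/-!
# The number of pairs with given Gram matrix for an even norm, part two: counts at two
(project P21, part PCE)
-/

set_option autoImplicit false
set_option linter.all false

namespace Pool.Agent.N878.PC21

open Finset
open Pool.Agent.N575.P15.PCE (graph_card graph_card' even_of_sq card4_even card4_two card8_two
  card8_a card8_b sq_par exists_kap)

theorem cnt_four {m φ g β e b n : ℤ} (hg : φ * g = β ^ 2 + m) (hm : m % 4 = 1)
    (hb : 3 * (e ^ 2 * φ) = 4 * n - b ^ 2)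
    (h1 : φ % 2 = 1 → φ % 4 = 1) (h2 : g % 2 = 1 → g % 4 = 1) :
    ((range 4 ×ˢ range 4).filter fun p : ℕ × ℕ => (4 : ℤ) ∣ e * p.1 - 2 * b ∧
      CS 4 (4 * m) φ g (2 * β) p.1 p.2).card = if b % 2 = 0 then 2 else 1 := by
  obtain ⟨qe, hqe⟩ := sq_par e
  obtain ⟨qb, hqb⟩ := sq_par b
  obtain ⟨qβ, hqβ⟩ := sq_par β
  rcases Int.emod_two_eq_zero_or_one φ with hφ | hφ
  · -- the first coefficient is even
    obtain ⟨f, rfl⟩ : ∃ f, φ = 2 * f := ⟨φ / 2, by omega⟩
    have hgo : g % 2 = 1 := by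
      by_contra hc
      obtain ⟨g', rfl⟩ : ∃ g', g = 2 * g' := ⟨g / 2, by omega⟩
      have e1 : 2 * f * (2 * g') = 4 * (f * g') := by ring
      rw [e1] at hg
      generalize f * g' = k at hg
      omega
    have hfo : f % 2 = 1 := by
      by_contra hc
      obtain ⟨f', rfl⟩ : ∃ f', f = 2 * f' := ⟨f / 2, by omega⟩
      have e1 : 2 * (2 * f') * g = 4 * (f' * g) := by ring
      rw [e1] at hg
      generalize f' * g = k at hg
      omega
    have hbe : b % 2 = 0 ∧ e % 2 = 0 := by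
      have e1 : 3 * (e ^ 2 * (2 * f)) = 2 * (3 * (e ^ 2 * f)) := by ring
      rw [e1] at hb
      rcases hqe with ⟨k1, k2⟩ | ⟨k1, k2⟩
      · refine ⟨?_, k1⟩
        generalize 3 * (e ^ 2 * f) = k at hb
        omega
      · exfalso
        obtain ⟨f', rfl⟩ : ∃ f', f = 2 * f' + 1 := ⟨f / 2, by omega⟩
        rw [k2] at hb
        have e2 : 2 * (3 * ((8 * qe + 1) * (2 * f' + 1))) =
          4 * (3 * (4 * qe * (2 * f' + 1) + f') + 1) + 2 := by ring
        rw [e2] at hb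
        generalize 3 * (4 * qe * (2 * f' + 1) + f') = k at hb
        omega
    rw [if_pos hbe.1]
    refine Eq.trans ?_ card4_even
    refine graph_card' (by norm_num) (fun μ ν => (4 : ℤ) ∣ e * μ - 2 * b ∧
      CS 4 (4 * m) (2 * f) g (2 * β) μ ν) (fun ν => ν % 2 = 0)
      (fun ν => (β + 1) * ν + 2) ?_
    intro μ ν hμ hν
    rw [CS_symm, CS_four (by linarith : g * (2 * f) = β ^ 2 + m) hm (h2 hgo)]
    have k1 : ((ν : ℤ) % 2 = 0) ↔ ν % 2 = 0 := by omega
    rw [k1]
    constructor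
    · rintro ⟨_, h⟩
      exact h
    · rintro ⟨h, h'⟩
      refine ⟨?_, h, h'⟩
      obtain ⟨c, hc⟩ := h'
      push_cast at hc
      obtain ⟨ν', rfl⟩ : ∃ t, ν = 2 * t := ⟨ν / 2, by omega⟩
      obtain ⟨e', rfl⟩ : ∃ t, e = 2 * t := ⟨e / 2, by omega⟩
      obtain ⟨b', rfl⟩ : ∃ t, b = 2 * t := ⟨b / 2, by omega⟩
      push_cast at hc
      have : (μ : ℤ) = 2 * (2 * c + (β + 1) * ν' + 1) := by linarith
      rw [this]
      exact ⟨e' * (2 * c + (β + 1) * ν' + 1) - b', by ring⟩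
  · -- the first coefficient is odd
    obtain ⟨f, hf⟩ : ∃ f, φ = 2 * f + 1 := ⟨φ / 2, by omega⟩
    have hgr := graph_card (T := 4) (by norm_num) (fun μ ν => (4 : ℤ) ∣ e * μ - 2 * b ∧
      CS 4 (4 * m) φ g (2 * β) μ ν) (fun μ => μ % 2 = 0 ∧ (4 : ℤ) ∣ e * μ - 2 * b)
      (fun μ => (β + 1) * μ + 2) (by
        intro μ ν hμ hν
        rw [CS_four hg hm (h1 hφ)]
        have k1 : ((μ : ℤ) % 2 = 0) ↔ μ % 2 = 0 := by omega
        rw [k1]
        push_cast
        tauto)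
    rw [hgr]
    have hpar : e % 2 = b % 2 := by
      rcases hqe with ⟨k1, k2⟩ | ⟨k1, k2⟩
      · rw [k2] at hb
        have e1 : 3 * (4 * qe * φ) = 4 * (3 * (qe * φ)) := by ring
        rw [e1] at hb
        generalize 3 * (qe * φ) = k at hb
        omega
      · rw [k2, hf] at hb
        have e1 : 3 * ((8 * qe + 1) * (2 * f + 1)) = 2 * (3 * (4 * qe * (2 * f + 1)) + 3 * f + 1) + 1 := by
          ring
        rw [e1] at hb
        generalize 3 * (4 * qe * (2 * f + 1)) = k at hb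
        omega
    split_ifs with hb2
    · refine Eq.trans ?_ card4_even
      congr 1
      refine Finset.filter_congr fun μ hμ => ?_
      have hμ := Finset.mem_range.1 hμ
      interval_cases μ <;> omega
    · refine Eq.trans ?_ card4_two
      congr 1
      refine Finset.filter_congr fun μ hμ => ?_
      have hμ := Finset.mem_range.1 hμ
      interval_cases μ <;> omega

theorem SG_odd {φ m : ℤ} (h : SG φ m) : ∃ σ : ℤ, (φ % 8 = 5 ∧ σ = 0) ∨
    (((φ % 8 = 7 ∧ m % 4 = 1) ∨ (φ % 8 = 3 ∧ m % 4 = 3)) ∧ σ = 1) := by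
  rcases h with h | h
  · exact ⟨0, Or.inl ⟨h, rfl⟩⟩
  · exact ⟨1, Or.inr ⟨h, rfl⟩⟩

theorem cnt_eight {m φ g β e b n : ℤ} (hg : φ * g = β ^ 2 + 2 * m) (hm : m % 2 = 1)
    (hb : 3 * (e ^ 2 * φ) = 8 * n - b ^ 2)
    (h1 : φ % 2 = 1 → SG φ m) (h2 : g % 2 = 1 → SG g m) :
    ((range 8 ×ˢ range 8).filter fun p : ℕ × ℕ => (8 : ℤ) ∣ e * p.1 - 2 * b ∧
      CS 8 (8 * m) φ g (2 * β) p.1 p.2).card = if b % 2 = 0 then 2 else 1 := by
  obtain ⟨qe, hqe⟩ := sq_par e
  obtain ⟨qb, hqb⟩ := sq_par b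
  obtain ⟨qβ, hqβ⟩ := sq_par β
  rcases Int.emod_two_eq_zero_or_one φ with hφ | hφ
  · -- the first coefficient is even
    obtain ⟨f, rfl⟩ : ∃ f, φ = 2 * f := ⟨φ / 2, by omega⟩
    have hgo : g % 2 = 1 := by
      by_contra hc
      obtain ⟨g', rfl⟩ : ∃ g', g = 2 * g' := ⟨g / 2, by omega⟩
      have e1 : 2 * f * (2 * g') = 4 * (f * g') := by ring
      rw [e1] at hg
      generalize f * g' = k at hg
      omega
    have hfo : f % 2 = 1 := by
      by_contra hc
      obtain ⟨f', rfl⟩ : ∃ f', f = 2 * f' := ⟨f / 2, by omega⟩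
      have e1 : 2 * (2 * f') * g = 4 * (f' * g) := by ring
      rw [e1] at hg
      generalize f' * g = k at hg
      omega
    obtain ⟨f', hf'⟩ : ∃ f', f = 2 * f' + 1 := ⟨f / 2, by omega⟩
    have hbe : e % 2 = 0 := by
      rcases hqe with ⟨k1, k2⟩ | ⟨k1, k2⟩
      · exact k1
      · exfalso
        rw [k2, hf'] at hb
        have e2 : 3 * ((8 * qe + 1) * (2 * (2 * f' + 1))) =
          4 * (3 * (4 * qe * (2 * f' + 1) + f') + 1) + 2 := by ring
        rw [e2] at hb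
        generalize 3 * (4 * qe * (2 * f' + 1) + f') = k at hb
        omega
    obtain ⟨e', rfl⟩ : ∃ t, e = 2 * t := ⟨e / 2, by omega⟩
    have hbb : ∃ t, b = 4 * t := by
      have e1 : 3 * ((2 * e') ^ 2 * (2 * f)) = 8 * (3 * (e' ^ 2 * f)) := by ring
      rw [e1] at hb
      generalize 3 * (e' ^ 2 * f) = k at hb
      have hb0 : b % 2 = 0 := by omega
      obtain ⟨b', rfl⟩ : ∃ t, b = 2 * t := ⟨b / 2, by omega⟩
      obtain ⟨qb', hqb'⟩ := sq_par b'
      have e3 : (2 * b') ^ 2 = 4 * b' ^ 2 := by ring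
      rw [e3] at hb
      exact ⟨b' / 2, by omega⟩
    obtain ⟨b', rfl⟩ := hbb
    obtain ⟨σ, hσ⟩ := SG_odd (h2 hgo)
    obtain ⟨κ, hκ⟩ := exists_kap (β := β) hgo σ
    rw [if_pos (by omega)]
    refine Eq.trans ?_ card8_two
    refine graph_card' (by norm_num) (fun μ ν => (8 : ℤ) ∣ 2 * e' * μ - 2 * (4 * b') ∧
      CS 8 (8 * m) (2 * f) g (2 * β) μ ν) (fun ν => ν % 4 = 2)
      (fun ν => κ * ν) ?_
    intro μ ν hμ hν
    have k1 : ((ν : ℤ) % 4 = 2) ↔ ν % 4 = 2 := by omega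
    have hC := CS_symm.trans
      (CS_eight (μ := (ν : ℤ)) (ν := (μ : ℤ)) (by linarith : g * (2 * f) = β ^ 2 + 2 * m) hm hσ hκ)
    constructor
    · rintro ⟨_, h⟩
      rw [hC, k1] at h
      exact h
    · rintro ⟨h, h'⟩
      have h3 : CS 8 (8 * m) (2 * f) g (2 * β) μ ν := by
        rw [hC, k1]
        exact ⟨h, h'⟩
      refine ⟨?_, h3⟩
      have h4 := h3.1
      obtain ⟨t, ht⟩ := even_of_sq (μ := (μ : ℤ)) (k := 3 * (2 * f)) (by
        have : (μ : ℤ) ^ 2 + 4 * (3 * (2 * f)) = (μ : ℤ) ^ 2 + 12 * (2 * f) := by ring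
        rw [this]; exact dvd_trans (by norm_num) h4)
      rw [ht] at h4 ⊢
      obtain ⟨qt, hqt⟩ := sq_par t
      have e4 : (2 * t) ^ 2 + 12 * (2 * f) = 4 * t ^ 2 + 8 * (3 * f) := by ring
      rw [e4] at h4
      have ht2 : t % 2 = 0 := by
        generalize 3 * f = k at h4
        omega
      obtain ⟨t', rfl⟩ : ∃ s, t = 2 * s := ⟨t / 2, by omega⟩
      exact ⟨e' * t' - b', by ring⟩
  · -- the first coefficient is odd
    obtain ⟨f, hf⟩ : ∃ f, φ = 2 * f + 1 := ⟨φ / 2, by omega⟩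
    obtain ⟨σ, hσ⟩ := SG_odd (h1 hφ)
    obtain ⟨κ, hκ⟩ := exists_kap (β := β) hφ σ
    have hgr := graph_card (T := 8) (by norm_num) (fun μ ν => (8 : ℤ) ∣ e * μ - 2 * b ∧
      CS 8 (8 * m) φ g (2 * β) μ ν) (fun μ => μ % 4 = 2 ∧ (8 : ℤ) ∣ e * μ - 2 * b)
      (fun μ => κ * μ) (by
        intro μ ν hμ hν
        rw [CS_eight hg hm hσ hκ]
        have k1 : ((μ : ℤ) % 4 = 2) ↔ μ % 4 = 2 := by omega
        rw [k1]
        push_cast
        tauto)
    rw [hgr]
    have hpar : e % 2 = b % 2 := by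
      rcases hqe with ⟨k1, k2⟩ | ⟨k1, k2⟩
      · rw [k2] at hb
        have e1 : 3 * (4 * qe * φ) = 4 * (3 * (qe * φ)) := by ring
        rw [e1] at hb
        generalize 3 * (qe * φ) = k at hb
        omega
      · rw [k2, hf] at hb
        have e1 : 3 * ((8 * qe + 1) * (2 * f + 1)) = 2 * (3 * (4 * qe * (2 * f + 1)) + 3 * f + 1) + 1 := by
          ring
        rw [e1] at hb
        generalize 3 * (4 * qe * (2 * f + 1)) = k at hb
        omega
    split_ifs with hb2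
    · have he2 : e % 2 = 0 := by omega
      obtain ⟨e', rfl⟩ : ∃ t, e = 2 * t := ⟨e / 2, by omega⟩
      obtain ⟨b', rfl⟩ : ∃ t, b = 2 * t := ⟨b / 2, by omega⟩
      have hpar' : e' % 2 = b' % 2 := by
        obtain ⟨qe', hqe'⟩ := sq_par e'
        obtain ⟨qb', hqb'⟩ := sq_par b'
        have hb' : 3 * (e' ^ 2 * φ) = 2 * n - b' ^ 2 := by
          apply mul_left_cancel₀ (by norm_num : (4 : ℤ) ≠ 0)
          linear_combination hb
        rcases hqe' with ⟨k1, k2⟩ | ⟨k1, k2⟩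
        · rw [k2] at hb'
          have e1 : 3 * (4 * qe' * φ) = 4 * (3 * (qe' * φ)) := by ring
          rw [e1] at hb'
          generalize 3 * (qe' * φ) = k at hb'
          omega
        · rw [k2, hf] at hb'
          have e1 : 3 * ((8 * qe' + 1) * (2 * f + 1)) =
            2 * (3 * (4 * qe' * (2 * f + 1)) + 3 * f + 1) + 1 := by ring
          rw [e1] at hb'
          generalize 3 * (4 * qe' * (2 * f + 1)) = k at hb'
          omega
      refine Eq.trans ?_ card8_two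
      congr 1
      refine Finset.filter_congr fun μ hμ => ?_
      have hμ := Finset.mem_range.1 hμ
      clear hgr hb hg hqe hqb hqβ
      interval_cases μ <;> omega
    · by_cases h4 : (e - b) % 4 = 0
      · refine Eq.trans ?_ card8_a
        congr 1
        refine Finset.filter_congr fun μ hμ => ?_
        have hμ := Finset.mem_range.1 hμ
        interval_cases μ <;> omega
      · refine Eq.trans ?_ card8_b
        congr 1
        refine Finset.filter_congr fun μ hμ => ?_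
        have hμ := Finset.mem_range.1 hμ
        interval_cases μ <;> omega

end Pool.Agent.N878.PC21
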