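import Pool.Agent.N878.PC21.PE1
import Pool.Agent.Y155.Z7.XCc

/-!
# The number of pairs with given Gram matrix for an even norm, part three: reciprocity
(project P21, part PCE)
-/

set_option autoImplicit false
set_option linter.all false

namespace Pool.Agent.N878.PC21

open Finset
open Pool.Agent.Z700 (hh)
open Pool.Agent.Y155.Z7 (hh_even hh_odd)
open Pool.Agent.N575.P15.PCE (exists_xy jac_one jac_pm)

theorem J3_neg (z : ℤ) : jacobiSym (-z) 3 = -jacobiSym z 3 := by
  have h1 : (-z) = (-1) * z := by ring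
  rw [h1, jacobiSym.mul_left]
  have : jacobiSym (-1) 3 = -1 := by norm_num
  rw [this]; ring

theorem J3_two (z : ℤ) : jacobiSym (2 * z) 3 = -jacobiSym z 3 := by
  rw [jacobiSym.mul_left]
  have : jacobiSym 2 3 = -1 := by norm_num
  rw [this]; ring

theorem J3_four (z : ℤ) : jacobiSym (4 * z) 3 = jacobiSym z 3 := by
  rw [jacobiSym.mul_left]
  have : jacobiSym 4 3 = 1 := by norm_num
  rw [this, one_mul]

theorem J3_one (z : ℕ) (h : z % 3 = 1) : jacobiSym z 3 = 1 := by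
  have h0 : (z : ℤ) % ((3 : ℕ) : ℤ) = 1 := by omega
  rw [jacobiSym.mod_left, h0]
  norm_num

theorem three_dvd_of {p : ℕ} (hp : p.Prime) (h : p ∣ 3) : p = 3 :=
  (Nat.prime_dvd_prime_iff_eq hp (by norm_num)).1 h

theorem jac3_one {z w : ℤ} (h : (3 : ℤ) ∣ z - w ^ 2) (hc : ¬ (3 : ℤ) ∣ z) : jacobiSym z 3 = 1 := by
  apply jac_one (w := w) (by exact_mod_cast h)
  intro p hp h5
  rw [three_dvd_of hp h5]
  exact hc

/-- the symbol at three in terms of a value of the form -/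
theorem three_val {m φ g β e D : ℕ} (hg : φ * g = β ^ 2 + m) (h5 : 3 ∣ m) (h25 : ¬ 9 ∣ m)
    (hD : D = 12 * (e ^ 2 * φ)) (hD0 : 0 < D) (x y : ℤ) {a : ℤ}
    (ha : a = φ * x ^ 2 + 2 * β * x * y + g * y ^ 2) (ha5 : ¬ (3 : ℤ) ∣ a) :
    hh (4 * m) D 3 = -jacobiSym ((m / 3 : ℕ) * a) 3 := by
  have p5 : Prime (3 : ℤ) := by norm_num
  have p5' : Nat.Prime 3 := by norm_num
  obtain ⟨m5, rfl⟩ := h5
  have hm5 : ¬ 3 ∣ m5 := by
    rintro ⟨c, rfl⟩
    exact h25 ⟨c, by ring⟩
  have e0 : 3 * m5 / 3 = m5 := Nat.mul_div_cancel_left _ (by norm_num)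
  rw [e0]
  have hgZ : (φ : ℤ) * g = β ^ 2 + 3 * m5 := by exact_mod_cast hg
  by_cases hφ : 3 ∣ φ
  · obtain ⟨φ1, rfl⟩ := hφ
    have hβ : 3 ∣ β := by
      apply p5'.dvd_of_dvd_pow (n := 2)
      have h1 : 3 ∣ β ^ 2 + 3 * m5 := by rw [← hg]; exact ⟨φ1 * g, by ring⟩
      exact (Nat.dvd_add_left (Dvd.intro _ rfl)).1 h1
    obtain ⟨β1, rfl⟩ := hβ
    have h1 : φ1 * g = 3 * β1 ^ 2 + m5 := by
      apply Nat.eq_of_mul_eq_mul_left (by norm_num : 0 < 3)
      rw [← mul_assoc, hg]; ring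
    have h1Z : (φ1 : ℤ) * g = 3 * β1 ^ 2 + m5 := by exact_mod_cast h1
    have h2 : ¬ 3 ∣ φ1 * g := by
      rw [h1]
      intro h
      exact hm5 ((Nat.dvd_add_right (Dvd.intro _ rfl)).1 h)
    have h3 : ¬ 3 ∣ φ1 := fun h => h2 (h.mul_right _)
    have h4 : ¬ 3 ∣ g := fun h => h2 (h.mul_left _)
    rw [hh_even 3 p5' (4 * (3 * m5)) (6 * e) φ1 D (by rw [hD]; ring) hD0 h3, J3_neg]
    have hga : jacobiSym ((g : ℤ) * a) 3 = 1 := by
      apply jac3_one (w := g * y + 3 * β1 * x)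
      · refine ⟨m5 * x ^ 2, ?_⟩
        rw [ha]
        push_cast at hgZ ⊢
        linear_combination x ^ 2 * hgZ
      · intro h
        rcases p5.dvd_or_dvd h with h | h
        · exact h4 (by exact_mod_cast h)
        · exact ha5 h
    have e1 : jacobiSym ((m5 : ℤ) * a) 3 = jacobiSym (φ1 * (g * a)) 3 := by
      apply jacobiSym.mod_left'
      apply Int.ModEq.symm
      apply Int.modEq_iff_dvd.2
      refine ⟨-(β1 ^ 2 * a), ?_⟩
      push_cast
      linear_combination (-a) * h1Z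
    rw [e1, jacobiSym.mul_left _ (g * a), hga, mul_one]
  · have h3 : ¬ 3 ∣ 4 * φ := by
      intro h
      rcases p5'.dvd_mul.1 h with h | h
      · revert h; decide
      · exact hφ h
    rw [hh_odd 3 p5' (4 * (3 * m5)) e (4 * φ) D (by rw [hD]; ring) hD0 h3]
    have e1 : 4 * (3 * m5) / 3 = 4 * m5 := by
      rw [show 4 * (3 * m5) = 3 * (4 * m5) by ring]
      exact Nat.mul_div_cancel_left _ (by norm_num)
    rw [e1, J3_neg]
    push_cast
    have e2 : (4 * (m5 : ℤ)) * (4 * φ) = 4 * (4 * (m5 * φ)) := by ring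
    rw [e2, J3_four, J3_four]
    have hφZ : ¬ (3 : ℤ) ∣ φ := fun h => hφ (by exact_mod_cast h)
    have hφa : jacobiSym ((φ : ℤ) * a) 3 = 1 := by
      apply jac3_one (w := φ * x + β * y)
      · refine ⟨m5 * y ^ 2, ?_⟩
        rw [ha]
        linear_combination y ^ 2 * hgZ
      · intro h
        rcases p5.dvd_or_dvd h with h | h
        · exact hφZ h
        · exact ha5 h
    rw [jacobiSym.mul_left] at hφa
    rw [jacobiSym.mul_left, jacobiSym.mul_left]
    have h7 : jacobiSym (φ : ℤ) 3 = 1 ∨ jacobiSym (φ : ℤ) 3 = -1 := by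
      apply jac_pm
      intro p hp h5
      rw [three_dvd_of hp h5]
      exact hφZ
    rcases h7 with h7 | h7
    · rw [h7] at hφa ⊢
      rw [one_mul] at hφa
      rw [hφa]
    · rw [h7] at hφa ⊢
      have : jacobiSym a 3 = -1 := by linarith
      rw [this]

/-- the value modulo `8` of the numbers prime to `6 m` represented by the form -/
theorem recip_core {m m0 a : ℕ} (ha2 : a % 2 = 1)
    (hm : (m % 4 = 1 ∧ m = m0) ∨ (m % 4 = 2 ∧ m = 2 * m0))
    (h1 : jacobiSym (-(m : ℤ)) a = 1)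
    (h2 : jacobiSym a m0 = (if m % 4 = 1 then 1 else -1)) :
    (m % 4 = 1 → a % 4 = 1) ∧ (m % 4 = 2 → (a % 8 = 5 ∨ (a % 8 = 7 ∧ m0 % 4 = 1) ∨
      (a % 8 = 3 ∧ m0 % 4 = 3))) := by
  have hao : Odd a := Nat.odd_iff.2 ha2
  have h4 : jacobiSym (-1) a = ZMod.χ₄ a := jacobiSym.at_neg_one hao
  rcases hm with ⟨hm1, rfl⟩ | ⟨hm2, hm0⟩
  · refine ⟨fun _ => ?_, fun h => by omega⟩
    rw [if_pos hm1] at h2
    have hmo : Odd m := Nat.odd_iff.2 (by omega)
    have h5 := jacobiSym.quadratic_reciprocity_one_mod_four hm1 hao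
    have h6 : -(m : ℤ) = (-1) * m := by ring
    rw [h6, jacobiSym.mul_left, h5, h2, h4] at h1
    by_contra hc
    have hc1 : a % 4 = 3 := by omega
    rw [ZMod.χ₄_nat_three_mod_four hc1] at h1
    norm_num at h1
  · refine ⟨fun h => by omega, fun _ => ?_⟩
    rw [if_neg (by omega)] at h2
    have hm0o : m0 % 2 = 1 := by omega
    have hm0' : Odd m0 := Nat.odd_iff.2 hm0o
    have h6 : -(m : ℤ) = (-2) * m0 := by rw [hm0]; push_cast; ring
    rw [h6, jacobiSym.mul_left, jacobiSym.at_neg_two hao, ZMod.χ₈'_nat_eq_if_mod_eight] at h1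
    rw [if_neg (by omega)] at h1
    have h8 : m0 % 4 = 1 ∨ m0 % 4 = 3 := by omega
    rcases h8 with h8 | h8
    · have h5 := jacobiSym.quadratic_reciprocity_one_mod_four h8 hao
      rw [h5, h2] at h1
      split_ifs at h1 with h9
      · norm_num at h1
      · omega
    · have h9 : a % 4 = 1 ∨ a % 4 = 3 := by omega
      rcases h9 with h9 | h9
      · have h5 := jacobiSym.quadratic_reciprocity_one_mod_four h9 hm0'
        rw [← h5, h2] at h1
        split_ifs at h1 with h10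
        · norm_num at h1
        · omega
      · have h5 := jacobiSym.quadratic_reciprocity_three_mod_four h8 h9
        rw [h5, h2] at h1
        split_ifs at h1 with h10
        · omega
        · norm_num at h1

/-- the symbol of `-3` -/
theorem J_neg_three (M : ℕ) (hM : M % 2 = 1) : jacobiSym (-3) M = jacobiSym M 3 := by
  have hMo : Odd M := Nat.odd_iff.2 hM
  have e : (-3 : ℤ) = (-1) * (3 : ℕ) := by norm_num
  rw [e, jacobiSym.mul_left, jacobiSym.at_neg_one hMo]
  have h8 : M % 4 = 1 ∨ M % 4 = 3 := by omega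
  rcases h8 with h8 | h8
  · have h5 := jacobiSym.quadratic_reciprocity_one_mod_four h8 (Nat.odd_iff.2 (by norm_num : 3 % 2 = 1))
    rw [ZMod.χ₄_nat_one_mod_four h8, h5, one_mul]
  · have h5 := jacobiSym.quadratic_reciprocity_three_mod_four h8 (by norm_num : 3 % 4 = 3)
    rw [ZMod.χ₄_nat_three_mod_four h8, h5]
    ring

/-- the sign at two of the odd coefficients -/
theorem recip {m m0 A B C : ℕ} (hs : Squarefree m)
    (hm : (m % 4 = 1 ∧ m = m0) ∨ (m % 4 = 2 ∧ m = 2 * m0))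
    (hAC : A * C = B ^ 2 + m) (hA : A % 2 = 1) {μ ν : ℤ} (h1 : (m0 : ℤ) ∣ μ ^ 2 + 12 * A)
    (h2 : (m0 : ℤ) ∣ 6 * (2 * B) + μ * ν) (h3 : (m0 : ℤ) ∣ 12 * C + ν ^ 2)
    (h5 : (¬ 3 ∣ m ∧ jacobiSym m 3 = 1) ∨ (3 ∣ m ∧ ∀ x y a : ℤ,
      a = A * x ^ 2 + 2 * B * x * y + C * y ^ 2 → ¬ (3 : ℤ) ∣ a →
        jacobiSym ((m / 3 : ℕ) * a) 3 = 1)) :
    (m % 4 = 1 → A % 4 = 1) ∧ (m % 4 = 2 → SG A m0) := by
  have hm0 : m ≠ 0 := hs.ne_zero
  have hm00 : m0 ≠ 0 := by
    rintro rfl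
    omega
  have hm0o : m0 % 2 = 1 := by omega
  have hm0m : m0 ∣ m := by
    rcases hm with ⟨_, h⟩ | ⟨_, h⟩
    · rw [h]
    · exact ⟨2, by rw [h]; ring⟩
  have hsq : ∀ p : ℕ, p.Prime → ¬ p * p ∣ m := fun p hp h =>
    hp.one_lt.ne' (Nat.isUnit_iff.1 (hs p h))
  have hprim : ∀ p : ℕ, p.Prime → p ∣ 3 * m0 → p ∣ A → p ∣ C → ¬ p ∣ 2 * B := by
    intro p hp hpN hpA hpC hpB
    have hp2 : p ≠ 2 := by
      rintro rfl
      omega
    have hpB' : p ∣ B := by
      rcases hp.dvd_mul.1 hpB with h | h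
      · exact absurd ((Nat.prime_dvd_prime_iff_eq hp Nat.prime_two).1 h) hp2
      · exact h
    apply hsq p hp
    have e1 : p * p ∣ B ^ 2 + m := by rw [← hAC]; exact Nat.mul_dvd_mul hpA hpC
    have e2 : p * p ∣ B ^ 2 := by rw [pow_two]; exact Nat.mul_dvd_mul hpB' hpB'
    exact (Nat.dvd_add_right e2).1 e1
  obtain ⟨x, y, hxy, hx2, hy8, hval⟩ := exists_xy A (2 * B) C (3 * m0) (by omega) (by omega) hprim
  obtain ⟨a, ha⟩ : ∃ a, a = A * x ^ 2 + 2 * B * x * y + C * y ^ 2 := ⟨_, rfl⟩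
  rw [← ha] at hval
  have haZ : (a : ℤ) = A * x ^ 2 + 2 * B * x * y + C * y ^ 2 := by rw [ha]; push_cast; ring
  have hACZ : (A : ℤ) * C = B ^ 2 + m := by exact_mod_cast hAC
  have ha8 : a % 8 = A % 8 := by
    obtain ⟨y', rfl⟩ := hy8
    obtain ⟨w, hw⟩ : ∃ w, x ^ 2 = 8 * w + 1 := by
      obtain ⟨t, rfl⟩ : ∃ t, x = 2 * t + 1 := ⟨x / 2, by omega⟩
      obtain ⟨w, hw⟩ := Nat.even_mul_succ_self t
      exact ⟨w, by linear_combination 4 * hw⟩
    have : a = 8 * (A * w + 2 * B * x * y' + 8 * C * y' ^ 2) + A := by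
      rw [ha, hw]; ring
    rw [this]
    omega
  have ha2 : a % 2 = 1 := by omega
  have hcm : ∀ p, p.Prime → p ∣ m → ¬ p ∣ a := by
    intro p hp hpm hpa
    by_cases hp2 : p = 2
    · subst hp2
      omega
    · refine hval p hp (Dvd.dvd.mul_left ?_ 3) hpa
      rcases hm with ⟨_, h⟩ | ⟨_, h⟩
      · rw [← h]; exact hpm
      · rw [h] at hpm
        rcases hp.dvd_mul.1 hpm with h' | h'
        · exact absurd ((Nat.prime_dvd_prime_iff_eq hp Nat.prime_two).1 h') hp2
        · exact h'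
  have ha5 : ¬ (3 : ℤ) ∣ a := by
    intro h
    exact hval 3 (by norm_num) (Dvd.intro _ rfl) (by exact_mod_cast h)
  -- the symbol of `-m` modulo `a`
  have hJ1 : jacobiSym (-(m : ℤ)) a = 1 := by
    have hc : IsCoprime (x : ℤ) (y : ℤ) := Nat.isCoprime_iff_coprime.2 hxy
    obtain ⟨v, u, huv⟩ := hc
    apply jac_one (w := A * x * (-u) + B * (x * v + y * (-u)) + C * y * v)
    · refine ⟨-(A * (-u) ^ 2 + 2 * B * (-u) * v + C * v ^ 2), ?_⟩
      rw [haZ]
      have huv' : v * (x : ℤ) + u * y = 1 := huv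
      linear_combination ((v * (x : ℤ) + u * y) ^ 2) * hACZ + m * (v * x + u * y + 1) * huv'
    · intro p hp hpa h
      have h' : (p : ℤ) ∣ m := (Int.dvd_neg).1 h
      exact hcm p hp (by exact_mod_cast h') hpa
  -- the symbol of `a` modulo `m0`
  have hw : (m0 : ℤ) ∣ -12 * a - (μ * x + ν * y) ^ 2 := by
    obtain ⟨c1, hc1⟩ := h1
    obtain ⟨c2, hc2⟩ := h2
    obtain ⟨c3, hc3⟩ := h3
    refine ⟨-(c1 * x ^ 2 + 2 * c2 * x * y + c3 * y ^ 2), ?_⟩
    rw [haZ]
    linear_combination (-(x : ℤ) ^ 2) * hc1 - 2 * x * y * hc2 - (y : ℤ) ^ 2 * hc3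
  have hJ20 : ∀ M : ℕ, M % 2 = 1 → M ∣ m0 → ¬ 3 ∣ M →
      jacobiSym M 3 * jacobiSym a M = 1 := by
    intro M hM2 hMm hM5
    have h1 : jacobiSym (-12 * a) M = 1 := by
      apply jac_one (dvd_trans (Int.natCast_dvd_natCast.2 hMm) hw)
      intro p hp hpM h
      have h' : (p : ℤ) ∣ (12 * a : ℕ) := by
        have e : (-12 * (a : ℤ)) = -((12 * a : ℕ) : ℤ) := by push_cast; ring
        rw [e] at h
        exact (Int.dvd_neg).1 h
      have h'' : p ∣ 12 * a := by exact_mod_cast h'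
      rcases hp.dvd_mul.1 h'' with h6 | h6
      · have h20 : (12 : ℕ) = 2 ^ 2 * 3 := by norm_num
        rw [h20] at h6
        rcases hp.dvd_mul.1 h6 with h6 | h6
        · have := (Nat.prime_dvd_prime_iff_eq hp Nat.prime_two).1 (hp.dvd_of_dvd_pow h6)
          subst this
          omega
        · have := three_dvd_of hp h6
          subst this
          exact hM5 hpM
      · exact hcm p hp ((hpM.trans hMm).trans hm0m) h6
    have e : (-12 * (a : ℤ)) = (-3) * ((2 : ℤ) ^ 2 * a) := by ring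
    have h4 : jacobiSym ((2 : ℤ) ^ 2) M = 1 := by
      apply jac_one (w := 2) (by simp)
      intro p hp hpM h
      have h6 : p ∣ 2 ^ 2 := by exact_mod_cast h
      have := (Nat.prime_dvd_prime_iff_eq hp Nat.prime_two).1 (hp.dvd_of_dvd_pow h6)
      subst this
      omega
    rw [e, jacobiSym.mul_left, jacobiSym.mul_left, h4, J_neg_three M hM2, one_mul] at h1
    exact h1
  have hJ2 : jacobiSym a m0 = (if m % 4 = 1 then 1 else -1) := by
    rcases h5 with ⟨h5m, hJm⟩ | ⟨h5m, hJm⟩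
    · have h50 : ¬ 3 ∣ m0 := fun h => h5m (h.trans hm0m)
      have h6 := hJ20 m0 hm0o (dvd_refl _) h50
      have h7 : jacobiSym m0 3 = if m % 4 = 1 then 1 else -1 := by
        rcases hm with ⟨h8, h9⟩ | ⟨h8, h9⟩
        · rw [if_pos h8, ← h9, hJm]
        · rw [if_neg (by omega)]
          rw [h9] at hJm
          push_cast at hJm
          rw [J3_two] at hJm
          linarith
      rw [h7] at h6
      split_ifs at h6 ⊢ with h9
      · linarith
      · linarith
    · have h5m0 : 3 ∣ m0 := by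
        rcases hm with ⟨_, h9⟩ | ⟨_, h9⟩
        · rw [← h9]; exact h5m
        · rw [h9] at h5m
          rcases (Nat.Prime.dvd_mul (by norm_num : Nat.Prime 3)).1 h5m with h | h
          · exact absurd h (by norm_num)
          · exact h
      obtain ⟨M, rfl⟩ := h5m0
      have hM5 : ¬ 3 ∣ M := by
        rintro ⟨c, rfl⟩
        exact hsq 3 (by norm_num) (dvd_trans ⟨c, by ring⟩ hm0m)
      have h6 := hJ20 M (by omega) (Dvd.intro_left _ rfl) hM5
      have h7 := hJm x y a haZ ha5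
      have h8 : jacobiSym ((M : ℤ) * a) 3 = if m % 4 = 1 then 1 else -1 := by
        rcases hm with ⟨h8, h9⟩ | ⟨h8, h9⟩
        · rw [if_pos h8]
          have : m / 3 = M := by rw [h9]; exact Nat.mul_div_cancel_left _ (by norm_num)
          rw [this] at h7
          exact h7
        · rw [if_neg (by omega)]
          have : m / 3 = 2 * M := by
            rw [h9, show 2 * (3 * M) = 3 * (2 * M) by ring]
            exact Nat.mul_div_cancel_left _ (by norm_num)
          rw [this] at h7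
          push_cast at h7
          rw [mul_assoc, J3_two] at h7
          linarith
      rw [← h8]
      have e1 : jacobiSym (a : ℤ) (3 * M) = jacobiSym a 3 * jacobiSym a M := by
        haveI : NeZero M := ⟨by rintro rfl; omega⟩
        exact jacobiSym.mul_right _ _ _
      rw [e1, jacobiSym.mul_left]
      have h9 : jacobiSym (M : ℤ) 3 = 1 ∨ jacobiSym (M : ℤ) 3 = -1 := by
        apply jac_pm
        intro p hp h5
        rw [three_dvd_of hp h5]
        intro h
        exact hM5 (by exact_mod_cast h)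
      have h12 : jacobiSym (a : ℤ) M = jacobiSym (M : ℤ) 3 := by
        rcases h9 with h9 | h9 <;> rw [h9] at h6 ⊢ <;> linarith
      rw [h12]
      ring
  obtain ⟨r1, r2⟩ := recip_core ha2 hm hJ1 hJ2
  refine ⟨fun h => ?_, fun h => ?_⟩
  · have := r1 h
    omega
  · have := r2 h
    unfold SG
    omega

end Pool.Agent.N878.PC21
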