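import Pool.Agent.N878.PC21.PE2
import Pool.Agent.N878.PC21.PE3
import Pool.Agent.N878.PC21.Cnt

/-!
# The number of pairs with given Gram matrix for an even norm, part four: the parameters
(project P21, part PCE)
-/

set_option autoImplicit false
set_option linter.all false

namespace Pool.Agent.N878.PC21

open Finset
open Pool.Agent.N575.P15.PCE (dvd_of_primes)
open Pool.Agent.Y288.Z7 (dt bez)

/-- the additional conditions hold away from two -/
theorem auto_odd {m0 T : ℕ} (hs : Squarefree m0) (h2 : m0 % 2 = 1) (hT : Nat.Coprime T m0)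
    {φ g β μ ν : ℤ} (hg : 4 * φ * g = β ^ 2 + (T * m0 : ℕ))
    (h1 : (m0 : ℤ) ∣ μ ^ 2 + 12 * φ) (h3 : (m0 : ℤ) ∣ 6 * β + μ * ν)
    (h4 : (m0 : ℤ) ∣ 12 * g + ν ^ 2) :
    (m0 : ℤ) ∣ β * ν - 2 * g * μ ∧ (m0 : ℤ) ∣ β * μ - 2 * φ * ν ∧
      (m0 : ℤ) ^ 2 ∣ 3 * (T * m0 : ℕ) + (g * μ ^ 2 - β * μ * ν + φ * ν ^ 2) := by
  have key : ∀ p : ℕ, p.Prime → p ∣ m0 → (p : ℤ) ∣ β * ν - 2 * g * μ ∧ (p : ℤ) ∣ β * μ - 2 * φ * ν ∧
      (p : ℤ) ^ 2 ∣ 3 * (T * m0 : ℕ) + (g * μ ^ 2 - β * μ * ν + φ * ν ^ 2) := by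
    intro p hp hpm
    have hpZ : Prime (p : ℤ) := Nat.prime_iff_prime_int.1 hp
    have hpm' : (p : ℤ) ∣ m0 := Int.natCast_dvd_natCast.2 hpm
    have hp2 : p ≠ 2 := by
      rintro rfl
      omega
    have hp2Z : ¬ (p : ℤ) ∣ 2 := by
      intro h
      have : p ∣ 2 := by exact_mod_cast h
      exact hp2 ((Nat.prime_dvd_prime_iff_eq hp Nat.prime_two).1 this)
    have k1 := hpm'.trans h1
    have k3 := hpm'.trans h3
    have k4 := hpm'.trans h4
    have hX : (p : ℤ) ∣ β * ν - 2 * g * μ ∧ (p : ℤ) ∣ β * μ - 2 * φ * ν := by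
      by_cases hp5 : p = 3
      · subst hp5
        have hμ : (3 : ℤ) ∣ μ := by
          apply hpZ.dvd_of_dvd_pow (n := 2)
          obtain ⟨c, hc⟩ := k1
          exact ⟨c - 4 * φ, by push_cast at hc ⊢; linear_combination hc⟩
        have hν : (3 : ℤ) ∣ ν := by
          apply hpZ.dvd_of_dvd_pow (n := 2)
          obtain ⟨c, hc⟩ := k4
          exact ⟨c - 4 * g, by push_cast at hc ⊢; linear_combination hc⟩
        exact ⟨Dvd.dvd.sub (hν.mul_left _) (hμ.mul_left _),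
          Dvd.dvd.sub (hμ.mul_left _) (hν.mul_left _)⟩
      · have hp10 : ¬ (p : ℤ) ∣ 6 := by
          intro h
          have h' : p ∣ 6 := by exact_mod_cast h
          have e : (6 : ℕ) = 2 * 3 := by norm_num
          rw [e] at h'
          rcases hp.dvd_mul.1 h' with h' | h'
          · exact hp2 ((Nat.prime_dvd_prime_iff_eq hp Nat.prime_two).1 h')
          · exact hp5 (three_dvd_of hp h')
        constructor
        · have : (p : ℤ) ∣ 6 * (β * ν - 2 * g * μ) := by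
            have e : 6 * (β * ν - 2 * g * μ) = (6 * β + μ * ν) * ν - (12 * g + ν ^ 2) * μ := by
              ring
            rw [e]
            exact Dvd.dvd.sub (k3.mul_right _) (k4.mul_right _)
          exact (hpZ.dvd_or_dvd this).resolve_left hp10
        · have : (p : ℤ) ∣ 6 * (β * μ - 2 * φ * ν) := by
            have e : 6 * (β * μ - 2 * φ * ν) = (6 * β + μ * ν) * μ - (μ ^ 2 + 12 * φ) * ν := by
              ring
            rw [e]
            exact Dvd.dvd.sub (k3.mul_right _) (k1.mul_right _)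
          exact (hpZ.dvd_or_dvd this).resolve_left hp10
    refine ⟨hX.1, hX.2, ?_⟩
    have hn : (p : ℤ) ∣ ((T * m0 : ℕ) : ℤ) := Int.natCast_dvd_natCast.2 (hpm.mul_left T)
    have j1 : (p : ℤ) ^ 2 ∣ 4 * φ * (3 * (T * m0 : ℕ) + (g * μ ^ 2 - β * μ * ν + φ * ν ^ 2)) := by
      have e : 4 * φ * (3 * (T * m0 : ℕ) + (g * μ ^ 2 - β * μ * ν + φ * ν ^ 2)) =
          (T * m0 : ℕ) * (μ ^ 2 + 12 * φ) + (β * μ - 2 * φ * ν) ^ 2 := by
        linear_combination μ ^ 2 * hg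
      rw [e]
      refine Dvd.dvd.add ?_ (pow_dvd_pow_of_dvd hX.2 2)
      rw [pow_two]
      exact mul_dvd_mul hn k1
    have j2 : (p : ℤ) ^ 2 ∣ 4 * g * (3 * (T * m0 : ℕ) + (g * μ ^ 2 - β * μ * ν + φ * ν ^ 2)) := by
      have e : 4 * g * (3 * (T * m0 : ℕ) + (g * μ ^ 2 - β * μ * ν + φ * ν ^ 2)) =
          (T * m0 : ℕ) * (12 * g + ν ^ 2) + (β * ν - 2 * g * μ) ^ 2 := by
        linear_combination ν ^ 2 * hg
      rw [e]
      refine Dvd.dvd.add ?_ (pow_dvd_pow_of_dvd hX.1 2)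
      rw [pow_two]
      exact mul_dvd_mul hn k4
    have hp4 : ¬ (p : ℤ) ∣ 4 := by
      intro h
      have e : (4 : ℤ) = 2 * 2 := by norm_num
      rw [e] at h
      rcases hpZ.dvd_or_dvd h with h | h <;> exact hp2Z h
    by_cases hφ : (p : ℤ) ∣ φ
    · by_cases hgg : (p : ℤ) ∣ g
      · exfalso
        have l1 : (p : ℤ) ^ 2 ∣ β ^ 2 + (T * m0 : ℕ) := by
          rw [← hg, pow_two, mul_assoc]
          exact (mul_dvd_mul hφ hgg).mul_left 4
        have l2 : (p : ℤ) ∣ β := by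
          apply hpZ.dvd_of_dvd_pow (n := 2)
          have := (dvd_trans (dvd_pow_self _ two_ne_zero) l1 : (p : ℤ) ∣ _)
          exact (Int.dvd_iff_dvd_of_dvd_add this).2 hn
        have l3 : (p : ℤ) ^ 2 ∣ ((T * m0 : ℕ) : ℤ) := by
          have := Int.dvd_sub l1 (pow_dvd_pow_of_dvd l2 2)
          rwa [add_sub_cancel_left] at this
        have l4 : p ^ 2 ∣ T * m0 := by exact_mod_cast l3
        have l5 : Nat.Coprime (p ^ 2) T := by
          apply Nat.Coprime.pow_left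
          exact Nat.Coprime.coprime_dvd_left hpm hT.symm
        have l6 := l5.dvd_of_dvd_mul_left l4
        rw [pow_two] at l6
        exact hp.one_lt.ne' (Nat.isUnit_iff.1 (hs p l6))
      · have hc : IsCoprime ((p : ℤ) ^ 2) (4 * g) := by
          apply IsCoprime.pow_left
          rw [Prime.coprime_iff_not_dvd hpZ]
          intro h
          rcases hpZ.dvd_or_dvd h with h | h
          · exact hp4 h
          · exact hgg h
        exact hc.dvd_of_dvd_mul_left j2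
    · have hc : IsCoprime ((p : ℤ) ^ 2) (4 * φ) := by
        apply IsCoprime.pow_left
        rw [Prime.coprime_iff_not_dvd hpZ]
        intro h
        rcases hpZ.dvd_or_dvd h with h | h
        · exact hp4 h
        · exact hφ h
      exact hc.dvd_of_dvd_mul_left j1
  refine ⟨?_, ?_, ?_⟩
  · have := dvd_of_primes hs 1 (β * ν - 2 * g * μ) (fun p hp h => by
      rw [pow_one]; exact (key p hp h).1)
    rwa [pow_one] at this
  · have := dvd_of_primes hs 1 (β * μ - 2 * φ * ν) (fun p hp h => by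
      rw [pow_one]; exact (key p hp h).2.1)
    rwa [pow_one] at this
  · exact dvd_of_primes hs 2 _ (fun p hp h => (key p hp h).2.2)

theorem CS_shift {T n1 φ g β μ ν : ℤ} (k l : ℤ) (h : CS T n1 φ g β μ ν) :
    CS T n1 φ g β (μ + T * k) (ν + T * l) := by
  obtain ⟨⟨a1, h1⟩, ⟨a2, h2⟩, ⟨a3, h3⟩, ⟨a4, h4⟩, ⟨a5, h5⟩, ⟨a6, h6⟩⟩ := h
  refine ⟨⟨a1 + 2 * μ * k + T * k ^ 2, by linear_combination h1⟩,
    ⟨a2 + μ * l + ν * k + T * k * l, by linear_combination h2⟩,
    ⟨a3 + 2 * ν * l + T * l ^ 2, by linear_combination h3⟩,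
    ⟨a4 + β * l - 2 * g * k, by linear_combination h4⟩,
    ⟨a5 + β * k - 2 * φ * l, by linear_combination h5⟩,
    ⟨a6 - a4 * k - a5 * l + g * k ^ 2 - β * k * l + φ * l ^ 2, ?_⟩⟩
  linear_combination h6 - T * k * h4 - T * l * h5

theorem CS_mod {T n1 φ g β : ℤ} (x y : ℤ) :
    CS T n1 φ g β x y ↔ CS T n1 φ g β (x % T) (y % T) := by
  constructor
  · intro h
    have := CS_shift (-(x / T)) (-(y / T)) h
    have e1 : x + T * -(x / T) = x % T := by
      have := Int.emod_add_mul_ediv x T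
      linarith
    have e2 : y + T * -(y / T) = y % T := by
      have := Int.emod_add_mul_ediv y T
      linarith
    rwa [e1, e2] at this
  · intro h
    have := CS_shift (x / T) (y / T) h
    rwa [Int.emod_add_mul_ediv, Int.emod_add_mul_ediv] at this


/-! ### the parameters with the divisibility conditions -/

/-- the additional conditions on the parameters -/
def ExtD (n1 φ g μ β ν : ℕ) : Prop :=
  (n1 : ℤ) ∣ β * ν - 2 * g * μ ∧ (n1 : ℤ) ∣ β * μ - 2 * φ * ν ∧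
    (n1 : ℤ) ^ 2 ∣ 3 * n1 + (g * μ ^ 2 - β * μ * ν + φ * ν ^ 2)

instance (n1 φ g μ β ν : ℕ) : Decidable (ExtD n1 φ g μ β ν) := by
  unfold ExtD
  infer_instance

/-- the parameters with the additional conditions -/
def XE (n1 : ℕ) (b : ℤ) (Q : ℕ) : Finset (ℕ × ℕ × ℕ × ℕ) :=
  (XX0 n1 b Q).filter fun q =>
    ExtD n1 (Q / q.1 ^ 2) ((q.2.2.1 ^ 2 + n1) / (4 * (Q / q.1 ^ 2))) q.2.1 q.2.2.1 q.2.2.2

theorem ext_iff {n1 φ g μ β ν : ℕ} (hn0 : 0 < n1) (hg : 4 * φ * g = β ^ 2 + n1) :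
    Ext n1 μ β ν φ g ↔ ExtD n1 φ g μ β ν := by
  have hn : (n1 : ℤ) ≠ 0 := by exact_mod_cast hn0.ne'
  have k2 : 4 * (φ : ℤ) * g = β ^ 2 + n1 := by exact_mod_cast hg
  have key : ∀ x y : ℤ, (n1 : ℤ) * x = β * ν - 2 * g * μ → (n1 : ℤ) * y = β * μ - 2 * φ * ν →
      (n1 : ℤ) * (φ * x ^ 2 + β * x * y + g * y ^ 2) = g * μ ^ 2 - β * μ * ν + φ * ν ^ 2 := by
    intro x y hx hy
    apply mul_left_cancel₀ hn
    have e : (n1 : ℤ) * (n1 * (φ * x ^ 2 + β * x * y + g * y ^ 2)) =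
        φ * (n1 * x) ^ 2 + β * (n1 * x) * (n1 * y) + g * (n1 * y) ^ 2 := by ring
    rw [e, hx, hy]
    linear_combination (g * (μ : ℤ) ^ 2 - β * μ * ν + φ * ν ^ 2) * k2
  constructor
  · rintro ⟨x, y, α, hx, hy, hα⟩
    refine ⟨⟨x, hx.symm⟩, ⟨y, hy.symm⟩, ⟨α, ?_⟩⟩
    have := key x y hx hy
    linear_combination (-(n1 : ℤ)) * hα - this
  · rintro ⟨⟨x, hx⟩, ⟨y, hy⟩, ⟨α, hα⟩⟩
    refine ⟨x, y, α, hx.symm, hy.symm, ?_⟩
    have := key x y hx.symm hy.symm
    apply mul_left_cancel₀ hn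
    linear_combination (-1 : ℤ) * hα - this

open Classical in
theorem XX_eqE {n1 : ℕ} (hn0 : 0 < n1) (b : ℤ) (Q : ℕ) : XX n1 b Q = XE n1 b Q := by
  unfold XX XE
  apply Finset.filter_congr
  intro q hq
  unfold XX0 at hq
  have hq := (Finset.mem_filter.1 hq).2
  obtain ⟨h1, h2', h3, h4, h5, h6, h7, h8⟩ := hq
  exact ext_iff hn0 (Nat.mul_div_cancel' h6)

/-- the norms modulo four -/
theorem gi_mod4 (u : Fin 3 → ℤ) : gi u u % 4 = 0 ∨ gi u u % 4 = 3 := by
  have h := gi_self u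
  rw [h]
  generalize u 1 ^ 2 + u 1 * u 2 + u 2 ^ 2 = k
  generalize u 0 = s
  rcases Int.emod_two_eq_zero_or_one s with hs | hs
  · obtain ⟨t, rfl⟩ : ∃ t, s = 2 * t := ⟨s / 2, by omega⟩
    left
    have : 3 * (2 * t) ^ 2 + 4 * k = 4 * (3 * t ^ 2 + k) := by ring
    rw [this]
    omega
  · obtain ⟨t, rfl⟩ : ∃ t, s = 2 * t + 1 := ⟨s / 2, by omega⟩
    right
    have : 3 * (2 * t + 1) ^ 2 + 4 * k = 4 * (k + 3 * t ^ 2 + 3 * t) + 3 := by ring
    rw [this]
    omega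

/-- the vectors of norm `4 m` are primitive -/
theorem prim_of_four {m : ℕ} (hm : Squarefree m) (h4 : m % 4 = 1 ∨ m % 4 = 2) (v : Fin 3 → ℤ)
    (hv : gi v v = (4 * m : ℕ)) : ∃ y, dt v y = 1 := by
  apply bez
  intro g hg
  by_contra hg1
  obtain ⟨p, hp, hpg⟩ := Nat.exists_prime_and_dvd hg1
  have hpv : ∀ i, (p : ℤ) ∣ v i := fun i => (Int.natCast_dvd_natCast.2 hpg).trans (hg i)
  choose u hu using hpv
  have h1 : v = (p : ℤ) • u := funext fun i => hu i
  rw [h1, gi_smul, smul_gi] at hv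
  by_cases h2 : p = 2
  · subst h2
    have h3 : gi u u = m := by
      push_cast at hv
      linarith
    have h5 := gi_mod4 u
    rw [h3] at h5
    omega
  · have h3 : p * p ∣ 4 * m := by
      have : ((p * p : ℕ) : ℤ) ∣ ((4 * m : ℕ) : ℤ) := by
        rw [← hv]; push_cast
        exact ⟨gi u u, by ring⟩
      exact_mod_cast this
    have h4' : Nat.Coprime (p * p) 4 := by
      have : Nat.Coprime p 2 := (Nat.coprime_primes hp Nat.prime_two).2 h2
      have h5 : Nat.Coprime p (2 ^ 2) := this.pow_right 2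
      exact Nat.Coprime.mul_left h5 h5
    have h6 := hm p (h4'.dvd_of_dvd_mul_left h3)
    exact hp.one_lt.ne' (Nat.isUnit_iff.1 h6)

/-- the number of pairs in terms of the parameters, even norms -/
theorem cnt_even {m n2 Q : ℕ} {b : ℤ} (hs : Squarefree m) (h4 : m % 4 = 1 ∨ m % 4 = 2)
    (hQ0 : 0 < Q) (hDD : 12 * (Q : ℤ) = (4 * m : ℕ) * n2 - b ^ 2) :
    Nat.card (Pairs (4 * m) n2 b) = 12 * (XE (4 * m) b Q).card := by
  rw [← XX_eqE (by omega)]
  exact t_CNT (by omega) (fun v hv => prim_of_four hs h4 v hv) hQ0 hDD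

end Pool.Agent.N878.PC21
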