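import Pool.Agent.N878.PC21.Tors

/-!
The rotations of the lattice of level 3 and the number of frames (project P21, part PC).
-/

set_option autoImplicit false
set_option linter.all false

namespace Pool.Agent.N878.PC21

open Finset Matrix
open Pool.Agent.Y288.Z7 (cols dd3 det_cols cols_eq)

theorem gi_comm (v w : Fin 3 → ℤ) : gi v w = gi w v := by
  simp only [gi]; ring

/-- the norm -/
theorem gi_self (v : Fin 3 → ℤ) : gi v v = 3 * v 0 ^ 2 +
    4 * (v 1 ^ 2 + v 1 * v 2 + v 2 ^ 2) := by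
  simp only [gi]; ring

theorem q_nonneg (x y : ℤ) : 0 ≤ x ^ 2 + x * y + y ^ 2 := by
  nlinarith [sq_nonneg (x + y), sq_nonneg x, sq_nonneg y]

theorem gi_nonneg (v : Fin 3 → ℤ) : 0 ≤ gi v v := by
  rw [gi_self]
  have := q_nonneg (v 1) (v 2)
  positivity

/-- the vectors of norm 3 -/
def un3 : Fin 2 → Fin 3 → ℤ := ![![1, 0, 0], ![-1, 0, 0]]

/-- the vectors of norm 4 -/
def un4 : Fin 6 → Fin 3 → ℤ := ![![0, 1, 0], ![0, 0, 1], ![0, 1, -1], ![0, -1, 0], ![0, 0, -1],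
  ![0, -1, 1]]

theorem small_q {x y : ℤ} {B : ℤ} (h : x ^ 2 + x * y + y ^ 2 ≤ B) : 3 * x ^ 2 ≤ 4 * B ∧
    3 * y ^ 2 ≤ 4 * B := by
  constructor <;> nlinarith [sq_nonneg (2 * x + y), sq_nonneg (2 * y + x)]

theorem un3_surj {v : Fin 3 → ℤ} (h : gi v v = 3) : ∃ i, un3 i = v := by
  have h3 := gi_self v
  have hv : v = ![v 0, v 1, v 2] := by ext i; fin_cases i <;> rfl
  rw [h] at h3
  rw [hv]
  generalize v 0 = x at *
  generalize v 1 = y at *
  generalize v 2 = z at *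
  have hq : y ^ 2 + y * z + z ^ 2 ≤ 0 := by
    have h1 : 4 * (y ^ 2 + y * z + z ^ 2) ≤ 3 := by nlinarith [sq_nonneg x]
    omega
  obtain ⟨h1, h2⟩ := small_q hq
  have hy : y = 0 := by
    have : y ^ 2 ≤ 0 := by linarith
    exact pow_eq_zero_iff two_ne_zero |>.1 (le_antisymm this (sq_nonneg y))
  have hz : z = 0 := by
    have : z ^ 2 ≤ 0 := by linarith
    exact pow_eq_zero_iff two_ne_zero |>.1 (le_antisymm this (sq_nonneg z))
  subst hy; subst hz
  have hx : (x - 1) * (x + 1) = 0 := by linarith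
  rcases mul_eq_zero.1 hx with h5 | h5
  · exact ⟨0, by rw [show x = 1 by linarith]; rfl⟩
  · exact ⟨1, by rw [show x = -1 by linarith]; rfl⟩

theorem un4_surj {v : Fin 3 → ℤ} (h : gi v v = 4) : ∃ i, un4 i = v := by
  have h3 := gi_self v
  have hv : v = ![v 0, v 1, v 2] := by ext i; fin_cases i <;> rfl
  rw [h] at h3
  rw [hv]
  generalize v 0 = x at *
  generalize v 1 = y at *
  generalize v 2 = z at *
  have hq : y ^ 2 + y * z + z ^ 2 ≤ 1 := by
    have h1 : 4 * (y ^ 2 + y * z + z ^ 2) ≤ 4 := by nlinarith [sq_nonneg x]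
    omega
  obtain ⟨h1, h2⟩ := small_q hq
  have hq0 := q_nonneg y z
  have hy1 : -1 ≤ y ∧ y ≤ 1 := by constructor <;> nlinarith
  have hz1 : -1 ≤ z ∧ z ≤ 1 := by constructor <;> nlinarith
  have hx1 : -1 ≤ x ∧ x ≤ 1 := by constructor <;> nlinarith
  obtain ⟨a1, a2⟩ := hy1
  obtain ⟨b1, b2⟩ := hz1
  obtain ⟨c1, c2⟩ := hx1
  clear h hv hq h1 h2 hq0
  interval_cases x <;> interval_cases y <;> interval_cases z <;>
    first
    | exact ⟨0, rfl⟩
    | exact ⟨1, rfl⟩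
    | exact ⟨2, rfl⟩
    | exact ⟨3, rfl⟩
    | exact ⟨4, rfl⟩
    | exact ⟨5, rfl⟩
    | (exfalso; revert h3; decide)

theorem un3_inj : Function.Injective un3 := by
  intro i j h
  have h0 := congrFun h 0
  revert h0 i j
  decide

theorem un4_inj : Function.Injective un4 := by
  intro i j h
  have h1 := congrFun h 1
  have h2 := congrFun h 2
  revert h1 h2 i j
  decide

def chk (p : Fin 2 × Fin 6 × Fin 6) : Bool :=
  gi (un3 p.1) (un4 p.2.1) = 0 && gi (un3 p.1) (un4 p.2.2) = 0 &&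
    gi (un4 p.2.1) (un4 p.2.2) = 2 && dd3 (un3 p.1) (un4 p.2.1) (un4 p.2.2) = 1

theorem chk_card : (Finset.univ.filter fun p : Fin 2 × Fin 6 × Fin 6 => chk p = true).card = 12 := by
  decide +kernel

theorem gram_iff (v w z : Fin 3 → ℤ) (M : Matrix (Fin 3) (Fin 3) ℤ) (hM : Mᵀ = M) :
    (cols v w z)ᵀ * GG * cols v w z = M ↔ gi v v = M 0 0 ∧ gi v w = M 0 1 ∧ gi v z = M 0 2 ∧
      gi w w = M 1 1 ∧ gi w z = M 1 2 ∧ gi z z = M 2 2 := by
  have h10 : M 1 0 = M 0 1 := congrFun (congrFun hM 0) 1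
  have h20 : M 2 0 = M 0 2 := congrFun (congrFun hM 0) 2
  have h21 : M 2 1 = M 1 2 := congrFun (congrFun hM 1) 2
  have c0 : (fun k => cols v w z k 0) = v := rfl
  have c1 : (fun k => cols v w z k 1) = w := rfl
  have c2 : (fun k => cols v w z k 2) = z := rfl
  constructor
  · intro h
    have hh : ∀ i j, gi (fun k => cols v w z k i) (fun k => cols v w z k j) = M i j := fun i j => by
      rw [← h, conj_apply, gi_eq]
    exact ⟨hh 0 0, hh 0 1, hh 0 2, hh 1 1, hh 1 2, hh 2 2⟩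
  · rintro ⟨h1, h2, h3, h4, h5, h6⟩
    ext i j
    rw [conj_apply, gi_eq]
    fin_cases i <;> fin_cases j
    · exact h1
    · exact h2
    · exact h3
    · exact (gi_comm _ _).trans (h2.trans h10.symm)
    · exact h4
    · exact h5
    · exact (gi_comm _ _).trans (h3.trans h20.symm)
    · exact (gi_comm _ _).trans (h5.trans h21.symm)
    · exact h6

theorem GG_symm : GGᵀ = GG := by decide

theorem card_rot :
    Nat.card {R : Matrix (Fin 3) (Fin 3) ℤ // Rᵀ * GG * R = GG ∧ R.det = 1} = 12 := by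
  have key : ∀ v w z : Fin 3 → ℤ, ((cols v w z)ᵀ * GG * cols v w z = GG ∧ (cols v w z).det = 1) ↔
      (gi v v = 3 ∧ gi v w = 0 ∧ gi v z = 0 ∧ gi w w = 4 ∧ gi w z = 2 ∧ gi z z = 4) ∧
        dd3 v w z = 1 := by
    intro v w z
    rw [det_cols, gram_iff v w z GG GG_symm]
    have g00 : GG 0 0 = 3 := rfl
    have g01 : GG 0 1 = 0 := rfl
    have g02 : GG 0 2 = 0 := rfl
    have g11 : GG 1 1 = 4 := rfl
    have g12 : GG 1 2 = 2 := rfl
    have g22 : GG 2 2 = 4 := rfl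
    rw [g00, g01, g02, g11, g12, g22]
  have hn3 : ∀ i, gi (un3 i) (un3 i) = 3 := by decide
  have hn4 : ∀ i, gi (un4 i) (un4 i) = 4 := by decide
  let F : {p : Fin 2 × Fin 6 × Fin 6 // chk p = true} →
      {R : Matrix (Fin 3) (Fin 3) ℤ // Rᵀ * GG * R = GG ∧ R.det = 1} := fun p =>
    ⟨cols (un3 p.1.1) (un4 p.1.2.1) (un4 p.1.2.2), (key _ _ _).2 (by
      have h := p.2
      simp only [chk, Bool.and_eq_true, decide_eq_true_eq] at h
      exact ⟨⟨hn3 _, h.1.1.1, h.1.1.2, hn4 _, h.1.2, hn4 _⟩, h.2⟩)⟩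
  have hF : Function.Bijective F := by
    constructor
    · rintro ⟨⟨i, j, k⟩, hp⟩ ⟨⟨i', j', k'⟩, hp'⟩ h
      have h1 := congrArg Subtype.val h
      have h2 : ∀ r c, cols (un3 i) (un4 j) (un4 k) r c = cols (un3 i') (un4 j') (un4 k') r c :=
        fun r c => congrFun (congrFun h1 r) c
      have e1 : i = i' := un3_inj (funext fun r => h2 r 0)
      have e2 : j = j' := un4_inj (funext fun r => h2 r 1)
      have e3 : k = k' := un4_inj (funext fun r => h2 r 2)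
      subst e1; subst e2; subst e3
      rfl
    · rintro ⟨R, hR⟩
      have hR' := hR
      rw [cols_eq R, key] at hR'
      obtain ⟨⟨h1, h2, h3, h4, h5, h6⟩, h7⟩ := hR'
      obtain ⟨i, hi⟩ := un3_surj (v := fun i => R i 0) h1
      obtain ⟨j, hj⟩ := un4_surj (v := fun i => R i 1) h4
      obtain ⟨k, hk⟩ := un4_surj (v := fun i => R i 2) h6
      refine ⟨⟨(i, j, k), ?_⟩, ?_⟩
      · simp only [chk, Bool.and_eq_true, decide_eq_true_eq, hi, hj, hk]
        exact ⟨⟨⟨h2, h3⟩, h5⟩, h7⟩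
      · apply Subtype.ext
        show cols (un3 i) (un4 j) (un4 k) = R
        rw [hi, hj, hk]
        exact (cols_eq R).symm
  rw [← Nat.card_eq_of_bijective F hF, Nat.card_eq_fintype_card, Fintype.card_subtype]
  exact chk_card

/-- TORS: the number of frames -/
theorem t_TORS (M : Matrix (Fin 3) (Fin 3) ℤ) (hM : PosF M) :
    Nat.card {A : Matrix (Fin 3) (Fin 3) ℤ // Aᵀ * GG * A = M.adjugate ∧ A.det = 1} = 12 := by
  obtain ⟨A0, hA0, hd0⟩ := exists_A hM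
  rw [← card_rot]
  have hu : IsUnit A0.det := by rw [hd0]; exact isUnit_one
  have h1 : A0 * A0⁻¹ = 1 := mul_nonsing_inv A0 hu
  have h2 : A0⁻¹ * A0 = 1 := nonsing_inv_mul A0 hu
  have h3 : A0⁻¹ᵀ * A0ᵀ = 1 := by rw [← transpose_mul, h1, transpose_one]
  have h4 : A0⁻¹.det = 1 := by
    have := congrArg det h1
    rwa [det_mul, hd0, one_mul, det_one] at this
  refine Nat.card_congr ?_
  refine ⟨fun A => ⟨A.1 * A0⁻¹, ?_, ?_⟩, fun R => ⟨R.1 * A0, ?_, ?_⟩, ?_, ?_⟩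
  · have e : (A.1 * A0⁻¹)ᵀ * GG * (A.1 * A0⁻¹) = A0⁻¹ᵀ * (A.1ᵀ * GG * A.1) * A0⁻¹ := by
      rw [transpose_mul]; simp only [Matrix.mul_assoc]
    rw [e, A.2.1, ← hA0]
    have e2 : A0⁻¹ᵀ * (A0ᵀ * GG * A0) * A0⁻¹ = (A0⁻¹ᵀ * A0ᵀ) * GG * (A0 * A0⁻¹) := by
      simp only [Matrix.mul_assoc]
    rw [e2, h3, h1, Matrix.one_mul, Matrix.mul_one]
  · rw [det_mul, A.2.2, h4, one_mul]
  · have e : (R.1 * A0)ᵀ * GG * (R.1 * A0) = A0ᵀ * (R.1ᵀ * GG * R.1) * A0 := by
      rw [transpose_mul]; simp only [Matrix.mul_assoc]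
    rw [e, R.2.1, hA0]
  · rw [det_mul, R.2.2, hd0, one_mul]
  · intro A
    apply Subtype.ext
    show A.1 * A0⁻¹ * A0 = A.1
    rw [Matrix.mul_assoc, h2, Matrix.mul_one]
  · intro R
    apply Subtype.ext
    show R.1 * A0 * A0⁻¹ = R.1
    rw [Matrix.mul_assoc, h1, Matrix.mul_one]

end Pool.Agent.N878.PC21
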